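import Pool.Agent.H41.CD.Ind

/-!
# From the ranks of the boundary matrices to Euler characteristics
-/

set_option autoImplicit false

namespace Pool.Agent.H41.CD

open Finset

variable {n : ℕ}

/-- The boundary matrix of the frozen statement. -/
def bdM (k : Type) [Field k] (L : Finset (Finset (Fin n))) (m : ℕ) :
    Matrix (Finset (Fin n)) (Finset (Fin n)) k :=
  Matrix.of (fun G H =>
    if G ∈ L ∧ H ∈ L ∧ G.card + 1 = m ∧ H.card = m ∧ G ⊆ H then
      (-1 : k) ^ ((G ×ˢ (H \ G)).filter (fun p => p.1 < p.2)).card else 0)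

/-- The link of `F`. -/
def lkF (Δ : Finset (Finset (Fin n))) (F : Finset (Fin n)) : Finset (Finset (Fin n)) :=
  Δ.filter (fun G => G ∩ F = ∅ ∧ G ∪ F ∈ Δ)

theorem bdM_zero (k : Type) [Field k] (L : Finset (Finset (Fin n))) : bdM k L 0 = 0 := by
  ext G H
  simp [bdM]

theorem bdM_big (k : Type) [Field k] (L : Finset (Finset (Fin n))) {m : ℕ} (hm : n < m) :
    bdM k L m = 0 := by
  ext G H
  have : H.card ≠ m := by
    have h := Finset.card_le_univ H
    rw [Fintype.card_fin] at h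
    omega
  simp [bdM, this]

theorem alt_telescope (r : ℕ → ℤ) (N : ℕ) :
    ∑ m ∈ Finset.range N, (-1 : ℤ) ^ m * (r m + r (m + 1)) = r 0 - (-1) ^ N * r N := by
  induction N with
  | zero => simp
  | succ N ih =>
    rw [Finset.sum_range_succ, ih, pow_succ]
    ring

theorem euler_link (k : Type) [Field k] {L : Finset (Finset (Fin n))} {c : ℕ} (hc : c ≤ n)
    (h : ∀ m : ℕ, (((L.filter (fun G => G.card = m)).card : ℤ)
        - ((bdM k L m).rank : ℤ) - ((bdM k L (m + 1)).rank : ℤ)) = if m = c then 1 else 0) :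
    ∑ G ∈ L, (-1 : ℤ) ^ G.card = (-1) ^ c := by
  classical
  have h1 : ∑ G ∈ L, (-1 : ℤ) ^ G.card
      = ∑ m ∈ Finset.range (n + 1), (-1 : ℤ) ^ m * ((L.filter (fun G => G.card = m)).card : ℤ) := by
    rw [← Finset.sum_fiberwise_of_maps_to (s := L) (t := Finset.range (n + 1))
      (g := fun G => G.card) (fun G _ => by
        rw [Finset.mem_range]
        have h := Finset.card_le_univ G
        rw [Fintype.card_fin] at h
        omega)]
    refine Finset.sum_congr rfl (fun m _ => ?_)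
    have : ∀ G ∈ L.filter (fun G => G.card = m), (-1 : ℤ) ^ G.card = (-1) ^ m := by
      intro G hG
      rw [(Finset.mem_filter.mp hG).2]
    rw [Finset.sum_congr rfl this, Finset.sum_const, nsmul_eq_mul]
    ring
  have h2 : ∀ m ∈ Finset.range (n + 1),
      (-1 : ℤ) ^ m * ((L.filter (fun G => G.card = m)).card : ℤ)
      = (-1 : ℤ) ^ m * (((bdM k L m).rank : ℤ) + ((bdM k L (m + 1)).rank : ℤ))
        + (if m = c then (-1 : ℤ) ^ m else 0) := by
    intro m _
    have := h m
    have h' : ((L.filter (fun G => G.card = m)).card : ℤ)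
        = ((bdM k L m).rank : ℤ) + ((bdM k L (m + 1)).rank : ℤ) + (if m = c then 1 else 0) := by
      linarith
    rw [h']
    split_ifs <;> ring
  rw [h1, Finset.sum_congr rfl h2, Finset.sum_add_distrib]
  have h3 := alt_telescope (fun m => ((bdM k L m).rank : ℤ)) (n + 1)
  rw [h3, bdM_zero, bdM_big k L (Nat.lt_succ_self n), Matrix.rank_zero]
  rw [Finset.sum_ite_eq' (Finset.range (n + 1)) c]
  simp only [Finset.mem_range, Nat.cast_zero, mul_zero, sub_zero, zero_add]
  rw [if_pos (by omega)]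

/-- Sums over the link and sums over the faces containing `F`. -/
theorem sum_link {R : Type} [AddCommMonoid R] {Δ : Finset (Finset (Fin n))}
    (hdown : ∀ F ∈ Δ, ∀ G : Finset (Fin n), G ⊆ F → G ∈ Δ) (F : Finset (Fin n))
    (f : Finset (Fin n) → R) :
    ∑ G ∈ lkF Δ F, f (G ∪ F) = ∑ G ∈ Δ.filter (fun G => F ⊆ G), f G := by
  classical
  refine Finset.sum_nbij' (fun G => G ∪ F) (fun G => G \ F) ?_ ?_ ?_ ?_ ?_
  · intro G hG
    unfold lkF at hG
    rw [Finset.mem_filter] at hG ⊢
    exact ⟨hG.2.2, Finset.subset_union_right⟩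
  · intro G hG
    unfold lkF
    rw [Finset.mem_filter] at hG ⊢
    refine ⟨hdown G hG.1 _ Finset.sdiff_subset, ?_, ?_⟩
    · rw [Finset.inter_comm]; exact Finset.inter_sdiff_self F G
    · rw [Finset.sdiff_union_of_subset hG.2]; exact hG.1
  · intro G hG
    unfold lkF at hG
    rw [Finset.mem_filter] at hG
    have : Disjoint G F := Finset.disjoint_iff_inter_eq_empty.mpr hG.2.1
    exact Finset.union_sdiff_cancel_right this
  · intro G hG
    rw [Finset.mem_filter] at hG
    exact Finset.sdiff_union_of_subset hG.2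
  · intro G _
    rfl

theorem card_link {Δ : Finset (Finset (Fin n))} {F G : Finset (Fin n)} (hG : G ∈ lkF Δ F) :
    (G ∪ F).card = G.card + F.card := by
  unfold lkF at hG
  rw [Finset.mem_filter] at hG
  exact Finset.card_union_of_disjoint (Finset.disjoint_iff_inter_eq_empty.mpr hG.2.1)

/-- The hypotheses of the frozen statement give a flag complex with the Euler
characteristics of spheres. -/
theorem flagEulerian_of_rank (k : Type) [Field k] {d : ℕ} {Δ : Finset (Finset (Fin n))}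
    (hdown : ∀ F ∈ Δ, ∀ G : Finset (Fin n), G ⊆ F → G ∈ Δ)
    (hflag : ∀ S : Finset (Fin n),
      (∀ a ∈ S, ∀ b ∈ S, ({a, b} : Finset (Fin n)) ∈ Δ) → S ∈ Δ)
    (hdim : ∀ F ∈ Δ, F.card ≤ d) (hfac : ∃ F ∈ Δ, F.card = d)
    (hrank : ∀ F ∈ Δ, ∀ m : ℕ,
      ((((lkF Δ F).filter (fun G => G.card = m)).card : ℤ)
        - ((bdM k (lkF Δ F) m).rank : ℤ) - ((bdM k (lkF Δ F) (m + 1)).rank : ℤ))
        = if m = d - F.card then 1 else 0) :
    FlagEulerian Δ d := by
  classical
  refine ⟨hdown, hflag, hdim, ?_⟩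
  intro F hF
  obtain ⟨F0, _, hF0⟩ := hfac
  have hdn : d ≤ n := by
    have h := Finset.card_le_univ F0
    rw [Fintype.card_fin] at h
    omega
  have h1 := euler_link k (L := lkF Δ F) (c := d - F.card) (by omega) (hrank F hF)
  have h2 := sum_link (R := ℚ) hdown F (fun G => (-1 : ℚ) ^ G.card)
  rw [← h2]
  have h3 : ∀ G ∈ lkF Δ F, (-1 : ℚ) ^ (G ∪ F).card = (-1) ^ F.card * (-1) ^ G.card := by
    intro G hG
    rw [card_link hG, pow_add]; ring
  rw [Finset.sum_congr rfl h3, ← Finset.mul_sum]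
  have h4 : ∑ G ∈ lkF Δ F, (-1 : ℚ) ^ G.card = (-1) ^ (d - F.card) := by
    have := congrArg (fun z : ℤ => (z : ℚ)) h1
    push_cast at this
    exact this
  rw [h4, ← pow_add]
  congr 1
  have := hdim F hF
  omega

/-- A face of size smaller than `d` is contained in a larger face. -/
theorem exists_vertex (k : Type) [Field k] {d : ℕ} {Δ : Finset (Finset (Fin n))}
    (hempty : ∅ ∈ Δ) {F : Finset (Fin n)} (hF : F ∈ Δ) (hlt : F.card < d)
    (hrank : ∀ m : ℕ,
      ((((lkF Δ F).filter (fun G => G.card = m)).card : ℤ)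
        - ((bdM k (lkF Δ F) m).rank : ℤ) - ((bdM k (lkF Δ F) (m + 1)).rank : ℤ))
        = if m = d - F.card then 1 else 0) :
    ∃ v : Fin n, v ∉ F ∧ insert v F ∈ Δ := by
  classical
  by_contra hcon
  push Not at hcon
  have h0 := hrank 0
  have hfil : (lkF Δ F).filter (fun G => G.card = 0) = {∅} := by
    ext G
    simp only [lkF, Finset.mem_filter, Finset.card_eq_zero, Finset.mem_singleton]
    constructor
    · rintro ⟨_, h⟩; exact h
    · rintro rfl
      refine ⟨⟨hempty, by simp, by simpa using hF⟩, rfl⟩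
  have hbd : bdM k (lkF Δ F) (0 + 1) = 0 := by
    ext G H
    have hno : ¬ (G ∈ lkF Δ F ∧ H ∈ lkF Δ F ∧ G.card + 1 = 0 + 1 ∧ H.card = 0 + 1 ∧ G ⊆ H) := by
      rintro ⟨_, hH, _, hc, _⟩
      obtain ⟨x, rfl⟩ := Finset.card_eq_one.mp (by omega : H.card = 1)
      unfold lkF at hH
      rw [Finset.mem_filter] at hH
      obtain ⟨_, hdisj, hun⟩ := hH
      have hxF : x ∉ F := by
        intro hx
        have : x ∈ ({x} : Finset (Fin n)) ∩ F := by
          rw [Finset.mem_inter]; exact ⟨Finset.mem_singleton_self x, hx⟩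
        rw [hdisj] at this
        exact absurd this (Finset.notMem_empty x)
      apply hcon x hxF
      rw [Finset.insert_eq]
      exact hun
    simp only [bdM, Matrix.of_apply, Matrix.zero_apply]
    rw [if_neg hno]
  rw [hfil, bdM_zero, hbd, Matrix.rank_zero, if_neg (by omega)] at h0
  simp at h0

/-- The Charney-Davis number of the link of `F` (for `d - |F|` even), that is
`(-1)^((d-|F|)/2) (h_0 - h_1 + h_2 - ...)` for the `h`-vector of the link. -/
def cdNumber (Δ : Finset (Finset (Fin n))) (d : ℕ) (F : Finset (Fin n)) : ℤ :=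
  (-1) ^ ((d - F.card) / 2) *
    ∑ G ∈ Δ.filter (fun G => G ∩ F = ∅ ∧ G ∪ F ∈ Δ), (-1) ^ G.card * 2 ^ (d - F.card - G.card)

theorem cdNumber_eq {Δ : Finset (Finset (Fin n))} {d : ℕ}
    (hdown : ∀ F ∈ Δ, ∀ G : Finset (Fin n), G ⊆ F → G ∈ Δ)
    (hdim : ∀ F ∈ Δ, F.card ≤ d) {F : Finset (Fin n)} (hev : Even F.card) :
    (cdNumber Δ d F : ℚ) = (-1) ^ ((d - F.card) / 2) * (2 ^ d * sF Δ F) := by
  classical
  unfold cdNumber
  push_cast
  congr 1
  unfold sF
  rw [← sum_link (R := ℚ) hdown F (fun G => (-1 / 2 : ℚ) ^ G.card), Finset.mul_sum]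
  refine Finset.sum_congr rfl (fun G hG => ?_)
  have hc := card_link hG
  have hmem : G ∪ F ∈ Δ := by
    unfold lkF at hG
    rw [Finset.mem_filter] at hG
    exact hG.2.2
  have hle := hdim _ hmem
  rw [hc] at hle
  rw [hc]
  obtain ⟨t, ht⟩ := hev
  have e1 : (-1 / 2 : ℚ) ^ (G.card + F.card) = (-1) ^ G.card * (1 / 2) ^ (G.card + F.card) := by
    have : (-1 / 2 : ℚ) = -1 * (1 / 2) := by norm_num
    rw [this, mul_pow, pow_add (-1 : ℚ), ht, ← two_mul, pow_mul (-1 : ℚ) 2 t]
    norm_num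
  have e2 : (2 : ℚ) ^ d = 2 ^ (d - F.card - G.card) * 2 ^ (G.card + F.card) := by
    rw [← pow_add]
    congr 1
    omega
  rw [e1, e2]
  have e3 : (2 : ℚ) ^ (G.card + F.card) * (1 / 2) ^ (G.card + F.card) = 1 := by
    rw [← mul_pow]; norm_num
  calc (-1 : ℚ) ^ G.card * 2 ^ (d - F.card - G.card)
      = (-1 : ℚ) ^ G.card * 2 ^ (d - F.card - G.card)
          * ((2 : ℚ) ^ (G.card + F.card) * (1 / 2) ^ (G.card + F.card)) := by rw [e3, mul_one]
    _ = _ := by ring

end Pool.Agent.H41.CD
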