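import Mathlib

/-!
# Charney-Davis numbers of flag Eulerian complexes: an identity at a vertex

`sF Δ F` is the sum of `(-1/2)^|G|` over the faces `G ⊇ F`.  For `|F|` even, `2^d` times
`(-1)^((d-|F|)/2) sF Δ F` is the Charney-Davis number of the link of `F`.
-/

set_option autoImplicit false

namespace Pool.Agent.H41.CD

open Finset

variable {n : ℕ}

/-- The sum of `(-1/2)^|G|` over the faces `G` of `Δ` containing `F`. -/
def sF (Δ : Finset (Finset (Fin n))) (F : Finset (Fin n)) : ℚ :=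
  ∑ G ∈ Δ.filter (fun G => F ⊆ G), (-1 / 2 : ℚ) ^ G.card

/-- The binomial theorem on an interval of sets. -/
theorem sum_Icc_half (F G : Finset (Fin n)) (h : F ⊆ G) :
    ∑ T ∈ Finset.Icc F G, (-1 / 2 : ℚ) ^ T.card
      = (-1) ^ F.card * (-1) ^ G.card * (-1 / 2 : ℚ) ^ G.card := by
  classical
  rw [Finset.Icc_eq_image_powerset h, Finset.sum_image]
  · have h1 : ∀ T ∈ (G \ F).powerset, (-1 / 2 : ℚ) ^ (F ∪ T).card
        = (-1 / 2 : ℚ) ^ F.card * ((-1 / 2 : ℚ) ^ T.card * 1 ^ ((G \ F).card - T.card)) := by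
      intro T hT
      rw [Finset.mem_powerset] at hT
      rw [Finset.card_union_of_disjoint, pow_add, one_pow, mul_one]
      exact Finset.disjoint_of_subset_right hT Finset.disjoint_sdiff
    rw [Finset.sum_congr rfl h1, ← Finset.mul_sum, Finset.sum_pow_mul_eq_add_pow]
    have hc : G.card = F.card + (G \ F).card := by
      rw [Finset.card_sdiff_of_subset h]
      have := Finset.card_le_card h
      omega
    rw [hc, pow_add, pow_add]
    have e1 : ((-1 : ℚ) / 2 + 1) = 1 / 2 := by norm_num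
    have e2 : ((-1 : ℚ) / 2) = -1 * (1 / 2) := by norm_num
    have e3 : ∀ a : ℕ, (-1 : ℚ) ^ a * (-1 : ℚ) ^ a = 1 := by
      intro a
      rw [← mul_pow]; norm_num
    rw [e1, e2, mul_pow, mul_pow]
    have := e3 F.card
    have h' := e3 (G \ F).card
    calc (-1 : ℚ) ^ F.card * (1 / 2) ^ F.card * (1 / 2) ^ (G \ F).card
        = ((-1 : ℚ) ^ F.card * (1 / 2) ^ F.card * (1 / 2) ^ (G \ F).card)
            * ((-1 : ℚ) ^ F.card * (-1 : ℚ) ^ F.card)
            * ((-1 : ℚ) ^ (G \ F).card * (-1 : ℚ) ^ (G \ F).card) := by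
          rw [this, h']; ring
      _ = _ := by ring
  · intro T hT T' hT' hTT
    rw [Finset.mem_coe, Finset.mem_powerset] at hT hT'
    have hd : Disjoint F T := Finset.disjoint_of_subset_right hT Finset.disjoint_sdiff
    have hd' : Disjoint F T' := Finset.disjoint_of_subset_right hT' Finset.disjoint_sdiff
    have h1 : (F ∪ T) \ F = T := Finset.union_sdiff_cancel_left hd
    have h2 : (F ∪ T') \ F = T' := Finset.union_sdiff_cancel_left hd'
    have h3 : F ∪ T = F ∪ T' := hTT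
    rw [← h1, ← h2, h3]

/-- A flag complex whose links have the Euler characteristics of spheres. -/
structure FlagEulerian (Δ : Finset (Finset (Fin n))) (d : ℕ) : Prop where
  down : ∀ F ∈ Δ, ∀ G : Finset (Fin n), G ⊆ F → G ∈ Δ
  flag : ∀ S : Finset (Fin n), (∀ a ∈ S, ∀ b ∈ S, ({a, b} : Finset (Fin n)) ∈ Δ) → S ∈ Δ
  dim : ∀ F ∈ Δ, F.card ≤ d
  euler : ∀ F ∈ Δ, ∑ G ∈ Δ.filter (fun G => F ⊆ G), (-1 : ℚ) ^ G.card = (-1) ^ d

/-- Dehn-Sommerville at `-1/2`. -/
theorem sF_symm {Δ : Finset (Finset (Fin n))} {d : ℕ} (hΔ : FlagEulerian Δ d)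
    {F : Finset (Fin n)} (hF : F ∈ Δ) :
    sF Δ F = (-1) ^ (d + F.card) * sF Δ F := by
  classical
  have h1 : ∀ G ∈ Δ.filter (fun G => F ⊆ G), (-1 / 2 : ℚ) ^ G.card
      = (-1) ^ F.card * (-1) ^ G.card * ∑ T ∈ Finset.Icc F G, (-1 / 2 : ℚ) ^ T.card := by
    intro G hG
    rw [Finset.mem_filter] at hG
    rw [sum_Icc_half F G hG.2]
    have e3 : ∀ a : ℕ, (-1 : ℚ) ^ a * (-1 : ℚ) ^ a = 1 := by
      intro a
      rw [← mul_pow]; norm_num
    have := e3 F.card
    have h' := e3 G.card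
    calc (-1 / 2 : ℚ) ^ G.card
        = (-1 / 2 : ℚ) ^ G.card * ((-1 : ℚ) ^ F.card * (-1 : ℚ) ^ F.card)
            * ((-1 : ℚ) ^ G.card * (-1 : ℚ) ^ G.card) := by rw [this, h']; ring
      _ = _ := by ring
  have h2 : sF Δ F = ∑ G ∈ Δ.filter (fun G => F ⊆ G),
      ∑ T ∈ Finset.Icc F G, (-1 : ℚ) ^ F.card * (-1) ^ G.card * (-1 / 2 : ℚ) ^ T.card := by
    unfold sF
    refine Finset.sum_congr rfl (fun G hG => ?_)
    rw [h1 G hG, Finset.mul_sum]
  have h3 : ∑ G ∈ Δ.filter (fun G => F ⊆ G),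
      ∑ T ∈ Finset.Icc F G, (-1 : ℚ) ^ F.card * (-1) ^ G.card * (-1 / 2 : ℚ) ^ T.card
      = ∑ T ∈ Δ.filter (fun G => F ⊆ G),
        ∑ G ∈ Δ.filter (fun G => T ⊆ G),
          (-1 : ℚ) ^ F.card * (-1) ^ G.card * (-1 / 2 : ℚ) ^ T.card := by
    apply Finset.sum_comm'
    intro G T
    simp only [Finset.mem_filter, Finset.mem_Icc]
    constructor
    · rintro ⟨⟨hG, hFG⟩, hFT, hTG⟩
      exact ⟨⟨hG, hTG⟩, hΔ.down G hG T hTG, hFT⟩
    · rintro ⟨⟨hG, hTG⟩, hT, hFT⟩
      exact ⟨⟨hG, hFT.trans hTG⟩, hFT, hTG⟩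
  have h4 : ∀ T ∈ Δ.filter (fun G => F ⊆ G),
        ∑ G ∈ Δ.filter (fun G => T ⊆ G),
          (-1 : ℚ) ^ F.card * (-1) ^ G.card * (-1 / 2 : ℚ) ^ T.card
        = (-1 : ℚ) ^ (d + F.card) * (-1 / 2 : ℚ) ^ T.card := by
    intro T hT
    rw [Finset.mem_filter] at hT
    rw [← Finset.sum_mul, ← Finset.mul_sum, hΔ.euler T hT.1, pow_add]
    ring
  rw [h2, h3, Finset.sum_congr rfl h4, ← Finset.mul_sum]
  have h5 : ∑ T ∈ Δ.filter (fun G => F ⊆ G), (-1 / 2 : ℚ) ^ T.card = sF Δ F := rfl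
  rw [h5]
  have e4 : (-1 : ℚ) ^ (d + F.card) * ((-1 : ℚ) ^ (d + F.card)) = 1 := by
    rw [← mul_pow]; norm_num
  have h6 := h2.trans (h3.trans (Finset.sum_congr rfl h4))
  rw [← Finset.mul_sum, h5] at h6
  rw [← h6]
  exact h6

/-- The sum vanishes if the link has odd dimension parameter. -/
theorem sF_eq_zero {Δ : Finset (Finset (Fin n))} {d : ℕ} (hΔ : FlagEulerian Δ d)
    {F : Finset (Fin n)} (hF : F ∈ Δ) (hodd : Odd (d + F.card)) : sF Δ F = 0 := by
  have h := sF_symm hΔ hF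
  rw [hodd.neg_one_pow] at h
  linarith

/-- The faces of the link of `F` all of whose vertices are not adjacent to `v`. -/
def far (Δ : Finset (Finset (Fin n))) (F : Finset (Fin n)) (v : Fin n) :
    Finset (Finset (Fin n)) :=
  Δ.filter (fun J => F ∪ J ∈ Δ ∧ ∀ a ∈ J, ({v, a} : Finset (Fin n)) ∉ Δ)

theorem sum_signs (X : Finset (Fin n)) :
    ∑ J ∈ X.powerset, (-1 : ℚ) ^ J.card = if X = ∅ then 1 else 0 := by
  have h := Finset.sum_pow_mul_eq_add_pow (-1 : ℚ) 1 X
  simp only [one_pow, mul_one] at h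
  rw [h]
  split_ifs with hX
  · subst hX; simp
  · have : X.card ≠ 0 := by
      rw [Ne, Finset.card_eq_zero]; exact hX
    norm_num
    exact hX

/-- The key identity at a vertex of the link of a face. -/
theorem sum_far {Δ : Finset (Finset (Fin n))} {d : ℕ} (hΔ : FlagEulerian Δ d)
    {F : Finset (Fin n)} {v : Fin n} (hv : insert v F ∈ Δ) (hvF : v ∉ F)
    (hev : Even (d + F.card)) :
    ∑ J ∈ far Δ F v, (-1 : ℚ) ^ J.card * sF Δ (F ∪ J) = 0 := by
  classical
  set N : Finset (Fin n) → Finset (Fin n) :=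
    fun G => G.filter (fun a => ({v, a} : Finset (Fin n)) ∉ Δ) with hN
  have h1 : ∑ J ∈ far Δ F v, (-1 : ℚ) ^ J.card * sF Δ (F ∪ J)
      = ∑ J ∈ far Δ F v, ∑ G ∈ Δ.filter (fun G => F ∪ J ⊆ G),
          (-1 : ℚ) ^ J.card * (-1 / 2 : ℚ) ^ G.card := by
    refine Finset.sum_congr rfl (fun J _ => ?_)
    unfold sF
    rw [Finset.mul_sum]
  have h2 : ∑ J ∈ far Δ F v, ∑ G ∈ Δ.filter (fun G => F ∪ J ⊆ G),
          (-1 : ℚ) ^ J.card * (-1 / 2 : ℚ) ^ G.card
      = ∑ G ∈ Δ.filter (fun G => F ⊆ G), ∑ J ∈ (N G).powerset,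
          (-1 : ℚ) ^ J.card * (-1 / 2 : ℚ) ^ G.card := by
    apply Finset.sum_comm'
    intro J G
    simp only [far, hN, Finset.mem_filter, Finset.mem_powerset]
    constructor
    · rintro ⟨⟨hJ, hFJ, hJv⟩, hG, hFJG⟩
      refine ⟨?_, hG, Finset.union_subset_left hFJG⟩
      intro a ha
      rw [Finset.mem_filter]
      exact ⟨(Finset.union_subset_right hFJG) ha, hJv a ha⟩
    · rintro ⟨hJ, hG, hFG⟩
      have hJG : J ⊆ G := hJ.trans (Finset.filter_subset _ _)
      refine ⟨⟨hΔ.down G hG J hJG, hΔ.down G hG _ (Finset.union_subset hFG hJG), ?_⟩,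
        hG, Finset.union_subset hFG hJG⟩
      intro a ha
      exact (Finset.mem_filter.mp (hJ ha)).2
  have h3 : ∀ G ∈ Δ.filter (fun G => F ⊆ G), ∑ J ∈ (N G).powerset,
          (-1 : ℚ) ^ J.card * (-1 / 2 : ℚ) ^ G.card
      = if N G = ∅ then (-1 / 2 : ℚ) ^ G.card else 0 := by
    intro G _
    rw [← Finset.sum_mul, sum_signs]
    split_ifs <;> simp
  rw [h1, h2, Finset.sum_congr rfl h3, ← Finset.sum_filter]
  rw [← Finset.sum_filter_add_sum_filter_not _ (fun G => v ∈ G)]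
  have hA : (((Δ.filter (fun G => F ⊆ G)).filter (fun G => N G = ∅)).filter (fun G => v ∈ G))
      = Δ.filter (fun G => insert v F ⊆ G) := by
    ext G
    simp only [Finset.mem_filter, hN, Finset.filter_eq_empty_iff, not_not]
    constructor
    · rintro ⟨⟨⟨hG, hFG⟩, _⟩, hvG⟩
      exact ⟨hG, Finset.insert_subset hvG hFG⟩
    · rintro ⟨hG, hvFG⟩
      have hvG : v ∈ G := hvFG (Finset.mem_insert_self _ _)
      refine ⟨⟨⟨hG, (Finset.subset_insert v F).trans hvFG⟩, ?_⟩, hvG⟩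
      intro a ha
      apply hΔ.down G hG
      intro x hx
      simp only [Finset.mem_insert, Finset.mem_singleton] at hx
      rcases hx with rfl | rfl
      · exact hvG
      · exact ha
  have hB : ∑ G ∈ (((Δ.filter (fun G => F ⊆ G)).filter (fun G => N G = ∅)).filter
        (fun G => ¬ v ∈ G)), (-1 / 2 : ℚ) ^ G.card
      = ∑ G ∈ Δ.filter (fun G => insert v F ⊆ G), (-2 : ℚ) * (-1 / 2 : ℚ) ^ G.card := by
    refine Finset.sum_nbij' (fun G => insert v G) (fun G => G.erase v) ?_ ?_ ?_ ?_ ?_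
    · intro G hG
      simp only [Finset.mem_filter, hN, Finset.filter_eq_empty_iff, not_not] at hG ⊢
      obtain ⟨⟨⟨hG, hFG⟩, hadj⟩, hvG⟩ := hG
      refine ⟨?_, Finset.insert_subset_insert v hFG⟩
      have hvv : ({v} : Finset (Fin n)) ∈ Δ := by
        apply hΔ.down _ hv
        intro x hx
        rw [Finset.mem_singleton] at hx
        rw [hx]; exact Finset.mem_insert_self _ _
      apply hΔ.flag
      intro a ha b hb
      rw [Finset.mem_insert] at ha hb
      rcases ha with rfl | ha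
      · rcases hb with rfl | hb
        · simpa using hvv
        · exact hadj hb
      · rcases hb with rfl | hb
        · rw [Finset.pair_comm]; exact hadj ha
        · apply hΔ.down G hG
          intro x hx
          simp only [Finset.mem_insert, Finset.mem_singleton] at hx
          rcases hx with rfl | rfl
          · exact ha
          · exact hb
    · intro G hG
      simp only [Finset.mem_filter, hN, Finset.filter_eq_empty_iff, not_not] at hG ⊢
      obtain ⟨hG, hvFG⟩ := hG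
      have hvG : v ∈ G := hvFG (Finset.mem_insert_self _ _)
      refine ⟨⟨⟨hΔ.down G hG _ (Finset.erase_subset _ _), ?_⟩, ?_⟩, Finset.notMem_erase v G⟩
      · intro x hx
        rw [Finset.mem_erase]
        refine ⟨?_, hvFG (Finset.mem_insert_of_mem hx)⟩
        rintro rfl
        exact hvF hx
      · intro a ha
        apply hΔ.down G hG
        intro x hx
        simp only [Finset.mem_insert, Finset.mem_singleton] at hx
        rcases hx with rfl | rfl
        · exact hvG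
        · exact Finset.mem_of_mem_erase ha
    · intro G hG
      simp only [Finset.mem_filter] at hG
      exact Finset.erase_insert hG.2
    · intro G hG
      simp only [Finset.mem_filter] at hG
      exact Finset.insert_erase (hG.2 (Finset.mem_insert_self _ _))
    · intro G hG
      simp only [Finset.mem_filter] at hG
      rw [Finset.card_insert_of_notMem hG.2, pow_succ]
      ring
  rw [hA, hB, ← Finset.mul_sum]
  have h5 : ∑ T ∈ Δ.filter (fun G => insert v F ⊆ G), (-1 / 2 : ℚ) ^ T.card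
      = sF Δ (insert v F) := rfl
  rw [h5]
  have h6 : sF Δ (insert v F) = 0 := by
    apply sF_eq_zero hΔ hv
    rw [Finset.card_insert_of_notMem hvF, ← add_assoc]
    exact hev.add_one
  rw [h6]; ring

end Pool.Agent.H41.CD
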