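import Mathlib

/-!
# A 4-cycle in a 4-regular triangle-free graph of class W2

`R` is a symmetric irreflexive relation on the finite set `X`, every vertex has exactly four
neighbours and they are pairwise not related, and for every independent set `S` no vertex
outside of `S` that is not related to a vertex of `S` becomes isolated after deleting `S` and
its neighbours.  Then there is a 4-cycle `v c u d` with an edge between a further neighbour
of `v` and a further neighbour of `u`.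
-/

set_option autoImplicit false

namespace Pool.Agent.H41.CD

open Finset

variable {α : Type} [DecidableEq α]

/-- The neighbours of `v` in `X`. -/
def nb (X : Finset α) (R : α → α → Prop) [DecidableRel R] (v : α) : Finset α :=
  X.filter (fun a => R v a)

/-- The hypotheses on the graph. -/
structure FourReg (X : Finset α) (R : α → α → Prop) [DecidableRel R] : Prop where
  symm : ∀ a b, R a b → R b a
  irrefl : ∀ a ∈ X, ¬ R a a
  four : ∀ v ∈ X, (nb X R v).card = 4
  indep : ∀ v ∈ X, ∀ a ∈ nb X R v, ∀ b ∈ nb X R v, ¬ R a b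
  w2 : ∀ S : Finset α, S ⊆ X → (∀ s ∈ S, ∀ t ∈ S, ¬ R s t) → ∀ a ∈ X, a ∉ S →
    (∀ s ∈ S, ¬ R a s) → ∃ b ∈ X, R a b ∧ ∀ s ∈ S, ¬ R b s

variable {X : Finset α} {R : α → α → Prop} [DecidableRel R]

theorem mem_nb {v a : α} : a ∈ nb X R v ↔ a ∈ X ∧ R v a := by
  unfold nb
  rw [Finset.mem_filter]

/-- If `w` is the only remaining neighbour of `a` then `a` is the only remaining neighbour
of `w`. -/
theorem FourReg.star (h : FourReg X R) {S : Finset α} (hS : S ⊆ X)
    (hind : ∀ s ∈ S, ∀ t ∈ S, ¬ R s t) {a w : α} (ha : a ∈ X) (haS : a ∉ S)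
    (haR : ∀ s ∈ S, ¬ R a s) (huniq : ∀ b ∈ X, R a b → (∀ s ∈ S, ¬ R b s) → b = w)
    {m : α} (hm : m ∈ X) (hwm : R w m) (hmS : ∀ s ∈ S, ¬ R m s) : m = a := by
  by_contra hne
  have ham : ¬ R a m := by
    intro ham
    have := huniq m hm ham hmS
    subst this
    exact h.irrefl m hm hwm
  obtain ⟨b, hb, hab, hbS⟩ := h.w2 (insert m S) (Finset.insert_subset hm hS) (by
      intro s hs t ht
      rw [Finset.mem_insert] at hs ht
      rcases hs with rfl | hs
      · rcases ht with rfl | ht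
        · exact h.irrefl _ hm
        · exact hmS t ht
      · rcases ht with rfl | ht
        · intro hst
          exact hmS s hs (h.symm _ _ hst)
        · exact hind s hs t ht) a ha (by
      rw [Finset.mem_insert, not_or]
      exact ⟨fun h' => hne h'.symm, haS⟩) (by
      intro s hs
      rw [Finset.mem_insert] at hs
      rcases hs with rfl | hs
      · exact ham
      · exact haR s hs)
  have hbw : b = w := huniq b hb hab (fun s hs => hbS s (Finset.mem_insert_of_mem hs))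
  subst hbw
  exact hbS m (Finset.mem_insert_self _ _) hwm

/-- Two vertices have at most two common neighbours. -/
theorem FourReg.k23 (h : FourReg X R) {v u : α} (hv : v ∈ X) (hu : u ∈ X) (hne : v ≠ u) :
    (nb X R v ∩ nb X R u).card ≤ 2 := by
  by_contra hcon
  push Not at hcon
  have hIv : nb X R v ∩ nb X R u ⊆ nb X R v := Finset.inter_subset_left
  have hIu : nb X R v ∩ nb X R u ⊆ nb X R u := Finset.inter_subset_right
  obtain ⟨b, hb⟩ : (nb X R v ∩ nb X R u).Nonempty := by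
    rw [← Finset.card_pos]; omega
  rw [Finset.mem_inter, mem_nb, mem_nb] at hb
  have hvu : ¬ R v u := by
    apply h.indep b hb.1.1
    · rw [mem_nb]; exact ⟨hv, h.symm _ _ hb.1.2⟩
    · rw [mem_nb]; exact ⟨hu, h.symm _ _ hb.2.2⟩
  have hSsub : ({u} : Finset α) ⊆ X := by
    intro x hx
    rw [Finset.mem_singleton] at hx
    rw [hx]; exact hu
  have hSind : ∀ s ∈ ({u} : Finset α), ∀ t ∈ ({u} : Finset α), ¬ R s t := by
    intro s hs t ht
    rw [Finset.mem_singleton] at hs ht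
    subst hs; subst ht
    exact h.irrefl _ hu
  have hSv : ∀ s ∈ ({u} : Finset α), ¬ R v s := by
    intro s hs
    rw [Finset.mem_singleton] at hs
    subst hs
    exact hvu
  have hvS : v ∉ ({u} : Finset α) := by
    rw [Finset.mem_singleton]; exact hne
  obtain ⟨w, hw, hvw, hwS⟩ := h.w2 {u} hSsub hSind v hv hvS hSv
  have hwu : ¬ R w u := hwS u (Finset.mem_singleton_self u)
  have hwI : w ∉ nb X R v ∩ nb X R u := by
    intro hwI
    rw [Finset.mem_inter, mem_nb, mem_nb] at hwI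
    exact hwu (h.symm _ _ hwI.2.2)
  have hwv : w ∈ nb X R v := by rw [mem_nb]; exact ⟨hw, hvw⟩
  have hins : insert w (nb X R v ∩ nb X R u) = nb X R v := by
    apply Finset.eq_of_subset_of_card_le (Finset.insert_subset hwv hIv)
    rw [Finset.card_insert_of_notMem hwI, h.four v hv]
    omega
  have huniq : ∀ b ∈ X, R v b → (∀ s ∈ ({u} : Finset α), ¬ R b s) → b = w := by
    intro b hb hvb hbS
    have hbm : b ∈ insert w (nb X R v ∩ nb X R u) := by
      rw [hins, mem_nb]; exact ⟨hb, hvb⟩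
    rw [Finset.mem_insert] at hbm
    rcases hbm with hbm | hbm
    · exact hbm
    · exfalso
      rw [Finset.mem_inter, mem_nb, mem_nb] at hbm
      exact hbS u (Finset.mem_singleton_self u) (h.symm _ _ hbm.2.2)
  have hstar : ∀ m ∈ X, R w m → ¬ R m u → m = v := by
    intro m hm hwm hmu
    apply h.star hSsub hSind hv hvS hSv huniq hm hwm
    intro s hs
    rw [Finset.mem_singleton] at hs
    subst hs
    exact hmu
  have hsub : (nb X R w).erase v ⊆ nb X R u := by
    intro m hm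
    rw [Finset.mem_erase, mem_nb] at hm
    rw [mem_nb]
    refine ⟨hm.2.1, ?_⟩
    by_contra hum
    exact hm.1 (hstar m hm.2.1 hm.2.2 (fun h' => hum (h.symm _ _ h')))
  have hdisj : Disjoint ((nb X R w).erase v) (nb X R v ∩ nb X R u) := by
    rw [Finset.disjoint_left]
    intro z hz hzI
    rw [Finset.mem_erase, mem_nb] at hz
    exact h.indep v hv w hwv z (hIv hzI) hz.2.2
  have hvw' : v ∈ nb X R w := by rw [mem_nb]; exact ⟨hv, h.symm _ _ hvw⟩
  have hc := Finset.card_le_card (Finset.union_subset hsub hIu)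
  rw [Finset.card_union_of_disjoint hdisj, Finset.card_erase_of_mem hvw', h.four w hw,
    h.four u hu] at hc
  omega

theorem FourReg.card_erase (h : FourReg X R) {a p : α} (hp : p ∈ X) (ha : a ∈ X)
    (hap : R a p) : ((nb X R p).erase a).card = 3 := by
  have : a ∈ nb X R p := by rw [mem_nb]; exact ⟨ha, h.symm _ _ hap⟩
  rw [Finset.card_erase_of_mem this, h.four p hp]

/-- A 4-cycle such that all neighbours of opposite vertices are pairwise unrelated
is impossible. -/
theorem FourReg.claimA (h : FourReg X R)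
    (hCL : ∀ v ∈ X, ∀ u ∈ X, v ≠ u → ∀ c ∈ nb X R v ∩ nb X R u,
      ∀ d ∈ nb X R v ∩ nb X R u, c ≠ d → ∀ x ∈ nb X R u, ∀ y ∈ nb X R v, ¬ R x y)
    {v u : α} (hv : v ∈ X) (hu : u ∈ X) (hne : v ≠ u) :
    (nb X R v ∩ nb X R u).card ≤ 1 := by
  by_contra hcon
  push Not at hcon
  obtain ⟨c, hc, d, hd, hcd⟩ := Finset.one_lt_card.mp hcon
  have hcl := hCL v hv u hu hne c hc d hd hcd
  rw [Finset.mem_inter] at hc hd
  have hcard : (((nb X R v).erase c).erase d).card = 2 := by
    rw [Finset.card_erase_of_mem, Finset.card_erase_of_mem hc.1, h.four v hv]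
    rw [Finset.mem_erase]
    exact ⟨hcd.symm, hd.1⟩
  obtain ⟨n2, hn2, n3, hn3, hn23⟩ := Finset.one_lt_card.mp (by rw [hcard]; norm_num)
  have hcover : ∀ b ∈ nb X R v, b = c ∨ b = d ∨ b = n2 ∨ b = n3 := by
    intro b hb
    by_contra hb'
    push Not at hb'
    have h3 : ({b, n2, n3} : Finset α) ⊆ ((nb X R v).erase c).erase d := by
      intro x hx
      simp only [Finset.mem_insert, Finset.mem_singleton] at hx
      rcases hx with rfl | rfl | rfl
      · rw [Finset.mem_erase, Finset.mem_erase]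
        exact ⟨hb'.2.1, hb'.1, hb⟩
      · exact hn2
      · exact hn3
    have := Finset.card_le_card h3
    rw [hcard, Finset.card_insert_of_notMem, Finset.card_pair hn23] at this
    · omega
    · simp only [Finset.mem_insert, Finset.mem_singleton, not_or]
      exact ⟨hb'.2.2.1, hb'.2.2.2⟩
  rw [Finset.mem_erase, Finset.mem_erase] at hn2 hn3
  have hn2v := mem_nb.mp hn2.2.2
  have hn3v := mem_nb.mp hn3.2.2
  have hcv := mem_nb.mp hc.1
  have hcu := mem_nb.mp hc.2
  have hdu := mem_nb.mp hd.2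
  have hvu : ¬ R v u := by
    apply h.indep c hcv.1
    · rw [mem_nb]; exact ⟨hv, h.symm _ _ hcv.2⟩
    · rw [mem_nb]; exact ⟨hu, h.symm _ _ hcu.2⟩
  have key : ∀ s2 ∈ (nb X R n2).erase v, ∀ s3 ∈ (nb X R n3).erase v, R s2 s3 := by
    intro s2 hs2 s3 hs3
    by_contra hs23
    rw [Finset.mem_erase] at hs2 hs3
    have hs2' := mem_nb.mp hs2.2
    have hs3' := mem_nb.mp hs3.2
    have hus2 : ¬ R u s2 := by
      intro hus
      have h1 : s2 ∈ nb X R u := by rw [mem_nb]; exact ⟨hs2'.1, hus⟩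
      exact hcl s2 h1 n2 hn2.2.2 (h.symm _ _ hs2'.2)
    have hus3 : ¬ R u s3 := by
      intro hus
      have h1 : s3 ∈ nb X R u := by rw [mem_nb]; exact ⟨hs3'.1, hus⟩
      exact hcl s3 h1 n3 hn3.2.2 (h.symm _ _ hs3'.2)
    have hvs2 : ¬ R v s2 := by
      apply h.indep n2 hn2v.1 _ _ _ hs2.2
      rw [mem_nb]; exact ⟨hv, h.symm _ _ hn2v.2⟩
    have hvs3 : ¬ R v s3 := by
      apply h.indep n3 hn3v.1 _ _ _ hs3.2
      rw [mem_nb]; exact ⟨hv, h.symm _ _ hn3v.2⟩
    obtain ⟨b, hb, hvb, hbS⟩ := h.w2 {u, s2, s3} (by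
        intro x hx
        simp only [Finset.mem_insert, Finset.mem_singleton] at hx
        rcases hx with rfl | rfl | rfl
        · exact hu
        · exact hs2'.1
        · exact hs3'.1) (by
        intro s hs t ht
        simp only [Finset.mem_insert, Finset.mem_singleton] at hs ht
        rcases hs with rfl | rfl | rfl <;> rcases ht with rfl | rfl | rfl
        · exact h.irrefl _ hu
        · exact hus2
        · exact hus3
        · exact fun h' => hus2 (h.symm _ _ h')
        · exact h.irrefl _ hs2'.1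
        · exact hs23
        · exact fun h' => hus3 (h.symm _ _ h')
        · exact fun h' => hs23 (h.symm _ _ h')
        · exact h.irrefl _ hs3'.1) v hv (by
        simp only [Finset.mem_insert, Finset.mem_singleton, not_or]
        exact ⟨hne, hs2.1.symm, hs3.1.symm⟩) (by
        intro s hs
        simp only [Finset.mem_insert, Finset.mem_singleton] at hs
        rcases hs with rfl | rfl | rfl
        · exact hvu
        · exact hvs2
        · exact hvs3)
    have hbv : b ∈ nb X R v := by rw [mem_nb]; exact ⟨hb, hvb⟩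
    rcases hcover b hbv with rfl | rfl | rfl | rfl
    · exact hbS u (by simp) (h.symm _ _ hcu.2)
    · exact hbS u (by simp) (h.symm _ _ hdu.2)
    · exact hbS s2 (by simp) hs2'.2
    · exact hbS s3 (by simp) hs3'.2
  have hc2 := h.card_erase hn2v.1 hv hn2v.2
  have hc3 := h.card_erase hn3v.1 hv hn3v.2
  obtain ⟨p, hp, q, hq, hpq⟩ := Finset.one_lt_card.mp (by rw [hc2]; norm_num)
  have hsub : (nb X R n3).erase v ⊆ nb X R p ∩ nb X R q := by
    intro s hs
    have hsX : s ∈ X := (mem_nb.mp (Finset.mem_of_mem_erase hs)).1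
    rw [Finset.mem_inter, mem_nb, mem_nb]
    exact ⟨⟨hsX, key p hp s hs⟩, ⟨hsX, key q hq s hs⟩⟩
  have h1 := Finset.card_le_card hsub
  have h2 := h.k23 (mem_nb.mp (Finset.mem_of_mem_erase hp)).1
    (mem_nb.mp (Finset.mem_of_mem_erase hq)).1 hpq
  omega

/-- Such a graph has a 4-cycle. -/
theorem FourReg.claimB (h : FourReg X R)
    (hC : ∀ v ∈ X, ∀ u ∈ X, v ≠ u → (nb X R v ∩ nb X R u).card ≤ 1)
    {a : α} (ha : a ∈ X) : False := by
  obtain ⟨w, hw⟩ : (nb X R a).Nonempty := by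
    rw [← Finset.card_pos, h.four a ha]; norm_num
  have hw' := mem_nb.mp hw
  have hc3 : ((nb X R a).erase w).card = 3 := by
    rw [Finset.card_erase_of_mem hw, h.four a ha]
  obtain ⟨n1, n2, n3, h12, h13, h23, hN⟩ := Finset.card_eq_three.mp hc3
  have hn1m : n1 ∈ (nb X R a).erase w := by rw [hN]; simp
  have hn2m : n2 ∈ (nb X R a).erase w := by rw [hN]; simp
  have hn3m : n3 ∈ (nb X R a).erase w := by rw [hN]; simp
  have hn1 := mem_nb.mp (Finset.mem_of_mem_erase hn1m)
  have hn2 := mem_nb.mp (Finset.mem_of_mem_erase hn2m)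
  have hn3 := mem_nb.mp (Finset.mem_of_mem_erase hn3m)
  have hcover : ∀ b ∈ nb X R a, b = w ∨ b = n1 ∨ b = n2 ∨ b = n3 := by
    intro b hb
    by_cases hbw : b = w
    · exact Or.inl hbw
    · right
      have : b ∈ (nb X R a).erase w := Finset.mem_erase.mpr ⟨hbw, hb⟩
      rw [hN] at this
      simpa using this
  -- a vertex of the second neighbourhood
  have hsec : ∀ p, p ∈ X → R a p → ∀ s ∈ (nb X R p).erase a, s ∈ X ∧ R p s ∧ s ≠ a ∧ ¬ R a s := by
    intro p hp hap s hs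
    rw [Finset.mem_erase] at hs
    have hs' := mem_nb.mp hs.2
    refine ⟨hs'.1, hs'.2, hs.1, ?_⟩
    apply h.indep p hp _ _ _ hs.2
    rw [mem_nb]; exact ⟨ha, h.symm _ _ hap⟩
  have hdom : ∀ s1 ∈ (nb X R n1).erase a, ∀ s2 ∈ (nb X R n2).erase a,
      ∀ s3 ∈ (nb X R n3).erase a, ¬ R s1 s2 → ¬ R s1 s3 → ¬ R s2 s3 →
      ∀ m ∈ (nb X R w).erase a, R s1 m ∨ R s2 m ∨ R s3 m := by
    intro s1 hs1 s2 hs2 s3 hs3 h1 h2 h3 m hm
    obtain ⟨hs1X, hns1, hs1a, has1⟩ := hsec n1 hn1.1 hn1.2 s1 hs1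
    obtain ⟨hs2X, hns2, hs2a, has2⟩ := hsec n2 hn2.1 hn2.2 s2 hs2
    obtain ⟨hs3X, hns3, hs3a, has3⟩ := hsec n3 hn3.1 hn3.2 s3 hs3
    by_contra hcon
    push Not at hcon
    rw [Finset.mem_erase] at hm
    have hm' := mem_nb.mp hm.2
    apply hm.1
    apply h.star (S := {s1, s2, s3}) (w := w) _ _ ha _ _ _ hm'.1 hm'.2
    · intro s hs
      simp only [Finset.mem_insert, Finset.mem_singleton] at hs
      rcases hs with rfl | rfl | rfl
      · exact fun h' => hcon.1 (h.symm _ _ h')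
      · exact fun h' => hcon.2.1 (h.symm _ _ h')
      · exact fun h' => hcon.2.2 (h.symm _ _ h')
    · intro x hx
      simp only [Finset.mem_insert, Finset.mem_singleton] at hx
      rcases hx with rfl | rfl | rfl
      · exact hs1X
      · exact hs2X
      · exact hs3X
    · intro s hs t ht
      simp only [Finset.mem_insert, Finset.mem_singleton] at hs ht
      rcases hs with rfl | rfl | rfl <;> rcases ht with rfl | rfl | rfl
      · exact h.irrefl _ hs1X
      · exact h1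
      · exact h2
      · exact fun h' => h1 (h.symm _ _ h')
      · exact h.irrefl _ hs2X
      · exact h3
      · exact fun h' => h2 (h.symm _ _ h')
      · exact fun h' => h3 (h.symm _ _ h')
      · exact h.irrefl _ hs3X
    · simp only [Finset.mem_insert, Finset.mem_singleton, not_or]
      exact ⟨hs1a.symm, hs2a.symm, hs3a.symm⟩
    · intro s hs
      simp only [Finset.mem_insert, Finset.mem_singleton] at hs
      rcases hs with rfl | rfl | rfl
      · exact has1
      · exact has2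
      · exact has3
    · intro b hb hab hbS
      have hba : b ∈ nb X R a := by rw [mem_nb]; exact ⟨hb, hab⟩
      rcases hcover b hba with h' | h' | h' | h'
      · exact h'
      · subst h'
        exact absurd hns1 (hbS s1 (by simp))
      · subst h'
        exact absurd hns2 (hbS s2 (by simp))
      · subst h'
        exact absurd hns3 (hbS s3 (by simp))
  have hpick : ∀ p, p ∈ X → R a p → ∀ x ∈ X, ∀ y ∈ X, x ≠ p → y ≠ p →
      ∃ s ∈ (nb X R p).erase a, ¬ R x s ∧ ¬ R y s := by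
    intro p hp hap x hx y hy hxp hyp
    by_contra hcon
    push Not at hcon
    have hsub : (nb X R p).erase a ⊆ (nb X R x ∩ nb X R p) ∪ (nb X R y ∩ nb X R p) := by
      intro s hs
      have hsX := (hsec p hp hap s hs).1
      rw [Finset.mem_union, Finset.mem_inter, Finset.mem_inter]
      by_cases hxs : R x s
      · left; exact ⟨mem_nb.mpr ⟨hsX, hxs⟩, Finset.mem_of_mem_erase hs⟩
      · right; exact ⟨mem_nb.mpr ⟨hsX, hcon s hs hxs⟩, Finset.mem_of_mem_erase hs⟩
    have h1 := Finset.card_le_card hsub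
    have h2 := Finset.card_union_le (nb X R x ∩ nb X R p) (nb X R y ∩ nb X R p)
    have h3 := hC x hx p hp hxp
    have h4 := hC y hy p hp hyp
    rw [h.card_erase hp ha hap] at h1
    omega
  -- elements of the second neighbourhood differ from the neighbours of `a`
  have hsn : ∀ p, p ∈ X → R a p → ∀ s ∈ (nb X R p).erase a, ∀ q, R a q → s ≠ q := by
    intro p hp hap s hs q haq hsq
    exact (hsec p hp hap s hs).2.2.2 (hsq ▸ haq)
  have hcw : ((nb X R w).erase a).card = 3 := h.card_erase hw'.1 ha hw'.2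
  have htrans : ∀ s1 ∈ (nb X R n1).erase a, ∃ s2 ∈ (nb X R n2).erase a,
      ∃ s3 ∈ (nb X R n3).erase a, ¬ R s1 s2 ∧ ¬ R s1 s3 ∧ ¬ R s2 s3 := by
    intro s1 hs1
    have hs1' := hsec n1 hn1.1 hn1.2 s1 hs1
    obtain ⟨s2, hs2, h12', _⟩ := hpick n2 hn2.1 hn2.2 s1 hs1'.1 s1 hs1'.1
      (hsn n1 hn1.1 hn1.2 s1 hs1 n2 hn2.2) (hsn n1 hn1.1 hn1.2 s1 hs1 n2 hn2.2)
    have hs2' := hsec n2 hn2.1 hn2.2 s2 hs2
    obtain ⟨s3, hs3, h13', h23'⟩ := hpick n3 hn3.1 hn3.2 s1 hs1'.1 s2 hs2'.1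
      (hsn n1 hn1.1 hn1.2 s1 hs1 n3 hn3.2) (hsn n2 hn2.1 hn2.2 s2 hs2 n3 hn3.2)
    exact ⟨s2, hs2, s3, hs3, h12', h13', h23'⟩
  obtain ⟨s1, hs1, t1, ht1, hst⟩ := Finset.one_lt_card.mp
    (show 1 < ((nb X R n1).erase a).card by rw [h.card_erase hn1.1 ha hn1.2]; norm_num)
  obtain ⟨s2, hs2, s3, hs3, h12', h13', h23'⟩ := htrans s1 hs1
  obtain ⟨t2, ht2, t3, ht3, k12, k13, k23⟩ := htrans t1 ht1
  have hs1' := hsec n1 hn1.1 hn1.2 s1 hs1
  have hs2' := hsec n2 hn2.1 hn2.2 s2 hs2
  have hs3' := hsec n3 hn3.1 hn3.2 s3 hs3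
  have ht1' := hsec n1 hn1.1 hn1.2 t1 ht1
  have ht2' := hsec n2 hn2.1 hn2.2 t2 ht2
  have ht3' := hsec n3 hn3.1 hn3.2 t3 ht3
  -- `t1` is related to a neighbour of `w`
  have hex : ∃ m ∈ (nb X R w).erase a, R t1 m := by
    by_contra hcon
    push Not at hcon
    have hsub : (nb X R w).erase a ⊆ (nb X R t2 ∩ nb X R w) ∪ (nb X R t3 ∩ nb X R w) := by
      intro m hm
      have hmw := Finset.mem_of_mem_erase hm
      have hmX := (mem_nb.mp hmw).1
      rw [Finset.mem_union, Finset.mem_inter, Finset.mem_inter]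
      rcases hdom t1 ht1 t2 ht2 t3 ht3 k12 k13 k23 m hm with h' | h' | h'
      · exact absurd h' (hcon m hm)
      · left; exact ⟨mem_nb.mpr ⟨hmX, h'⟩, hmw⟩
      · right; exact ⟨mem_nb.mpr ⟨hmX, h'⟩, hmw⟩
    have h1 := Finset.card_le_card hsub
    have h2 := Finset.card_union_le (nb X R t2 ∩ nb X R w) (nb X R t3 ∩ nb X R w)
    have h3 := hC t2 ht2'.1 w hw'.1 (hsn n2 hn2.1 hn2.2 t2 ht2 w hw'.2)
    have h4 := hC t3 ht3'.1 w hw'.1 (hsn n3 hn3.1 hn3.2 t3 ht3 w hw'.2)
    omega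
  obtain ⟨m, hm, htm⟩ := hex
  have hmw := Finset.mem_of_mem_erase hm
  have hmX := (mem_nb.mp hmw).1
  have ht1m : t1 ∈ nb X R m := mem_nb.mpr ⟨ht1'.1, h.symm _ _ htm⟩
  -- final contradiction for two vertices related to `m`
  have hfin : ∀ x ∈ X, ∀ z ∈ X, x ≠ w → z ≠ w → R x m → ∀ s ∈ X, s ≠ w → R z m →
      (∀ m' ∈ (nb X R w).erase a, R x m' ∨ R z m' ∨ R s m') → False := by
    intro x hx z hz hxw hzw hxm s hs hsw hzm hall
    have hone : ∀ y ∈ X, y ≠ w → R y m → ∀ m' ∈ nb X R w, R y m' → m' = m := by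
      intro y hy hyw hym m' hm' hym'
      by_contra hne
      have h1 := hC y hy w hw'.1 hyw
      have h2 : ({m', m} : Finset α) ⊆ nb X R y ∩ nb X R w := by
        intro b hb
        simp only [Finset.mem_insert, Finset.mem_singleton] at hb
        rw [Finset.mem_inter]
        rcases hb with rfl | rfl
        · exact ⟨mem_nb.mpr ⟨(mem_nb.mp hm').1, hym'⟩, hm'⟩
        · exact ⟨mem_nb.mpr ⟨hmX, hym⟩, hmw⟩
      have h3 := Finset.card_le_card h2
      rw [Finset.card_pair hne] at h3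
      omega
    have hsub : (nb X R w).erase a ⊆ insert m (nb X R s ∩ nb X R w) := by
      intro m' hm'
      have hm'w := Finset.mem_of_mem_erase hm'
      rw [Finset.mem_insert, Finset.mem_inter]
      rcases hall m' hm' with h' | h' | h'
      · left; exact hone x hx hxw hxm m' hm'w h'
      · left; exact hone z hz hzw hzm m' hm'w h'
      · right; exact ⟨mem_nb.mpr ⟨(mem_nb.mp hm'w).1, h'⟩, hm'w⟩
    have h1 := Finset.card_le_card hsub
    have h2 := Finset.card_insert_le m (nb X R s ∩ nb X R w)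
    have h3 := hC s hs w hw'.1 hsw
    omega
  rcases hdom s1 hs1 s2 hs2 s3 hs3 h12' h13' h23' m hm with h' | h' | h'
  · have h1 := hC s1 hs1'.1 t1 ht1'.1 hst
    have hmn : n1 ≠ m := by
      rintro rfl
      exact h.indep a ha w hw n1 (mem_nb.mpr hn1) (mem_nb.mp hmw).2
    have h2 : ({n1, m} : Finset α) ⊆ nb X R s1 ∩ nb X R t1 := by
      intro b hb
      simp only [Finset.mem_insert, Finset.mem_singleton] at hb
      rw [Finset.mem_inter]
      rcases hb with rfl | rfl
      · exact ⟨mem_nb.mpr ⟨hn1.1, h.symm _ _ hs1'.2.1⟩, mem_nb.mpr ⟨hn1.1, h.symm _ _ ht1'.2.1⟩⟩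
      · exact ⟨mem_nb.mpr ⟨hmX, h'⟩, mem_nb.mpr ⟨hmX, htm⟩⟩
    have h3 := Finset.card_le_card h2
    rw [Finset.card_pair hmn] at h3
    omega
  · have hts : ¬ R t1 s2 :=
      h.indep m hmX t1 ht1m s2 (mem_nb.mpr ⟨hs2'.1, h.symm _ _ h'⟩)
    obtain ⟨s, hs, q1, q2⟩ := hpick n3 hn3.1 hn3.2 t1 ht1'.1 s2 hs2'.1
      (hsn n1 hn1.1 hn1.2 t1 ht1 n3 hn3.2) (hsn n2 hn2.1 hn2.2 s2 hs2 n3 hn3.2)
    have hs' := hsec n3 hn3.1 hn3.2 s hs
    exact hfin t1 ht1'.1 s2 hs2'.1 (hsn n1 hn1.1 hn1.2 t1 ht1 w hw'.2)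
      (hsn n2 hn2.1 hn2.2 s2 hs2 w hw'.2) htm s hs'.1 (hsn n3 hn3.1 hn3.2 s hs w hw'.2) h'
      (fun m' hm' => hdom t1 ht1 s2 hs2 s hs hts q1 q2 m' hm')
  · have hts : ¬ R t1 s3 :=
      h.indep m hmX t1 ht1m s3 (mem_nb.mpr ⟨hs3'.1, h.symm _ _ h'⟩)
    obtain ⟨s, hs, q1, q2⟩ := hpick n2 hn2.1 hn2.2 t1 ht1'.1 s3 hs3'.1
      (hsn n1 hn1.1 hn1.2 t1 ht1 n2 hn2.2) (hsn n3 hn3.1 hn3.2 s3 hs3 n2 hn2.2)
    have hs' := hsec n2 hn2.1 hn2.2 s hs
    exact hfin t1 ht1'.1 s3 hs3'.1 (hsn n1 hn1.1 hn1.2 t1 ht1 w hw'.2)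
      (hsn n3 hn3.1 hn3.2 s3 hs3 w hw'.2) htm s hs'.1 (hsn n2 hn2.1 hn2.2 s hs w hw'.2) h'
      (fun m' hm' => by
        rcases hdom t1 ht1 s hs s3 hs3 q1 hts (fun h'' => q2 (h.symm _ _ h'')) m' hm'
          with h1 | h1 | h1
        · exact Or.inl h1
        · exact Or.inr (Or.inr h1)
        · exact Or.inr (Or.inl h1))

/-- The 4-cycle with a chordal edge between further neighbours. -/
theorem FourReg.unclean (h : FourReg X R) (hne : X.Nonempty) :
    ∃ v ∈ X, ∃ u ∈ X, v ≠ u ∧ ∃ c ∈ nb X R v ∩ nb X R u, ∃ d ∈ nb X R v ∩ nb X R u,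
      c ≠ d ∧ ∃ x ∈ nb X R u, ∃ y ∈ nb X R v, R x y := by
  by_contra hcon
  push Not at hcon
  obtain ⟨a, ha⟩ := hne
  exact h.claimB (fun v hv u hu hvu => h.claimA hcon hv hu hvu) ha

end Pool.Agent.H41.CD
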