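import Pool.Agent.H41.CD.Core

/-!
# The induction
-/

set_option autoImplicit false

namespace Pool.Agent.H41.CD

open Finset

variable {n : ℕ}

theorem far_disjoint {Δ : Finset (Finset (Fin n))} {d : ℕ} (hΔ : FlagEulerian Δ d)
    {F : Finset (Fin n)} {v : Fin n} (hv : insert v F ∈ Δ)
    {J : Finset (Fin n)} (hJ : ∀ a ∈ J, ({v, a} : Finset (Fin n)) ∉ Δ) : Disjoint F J := by
  rw [Finset.disjoint_left]
  intro a haF haJ
  apply hJ a haJ
  apply hΔ.down _ hv
  intro x hx
  simp only [Finset.mem_insert, Finset.mem_singleton] at hx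
  rcases hx with rfl | rfl
  · exact Finset.mem_insert_self _ _
  · exact Finset.mem_insert_of_mem haF

/-- If the vertex `w` of the link of `F` has exactly one non-neighbour there then the
Charney-Davis number of the link vanishes. -/
theorem sF_susp {Δ : Finset (Finset (Fin n))} {d : ℕ} (hΔ : FlagEulerian Δ d)
    {F : Finset (Fin n)} (hF : F ∈ Δ) (hev : Even (d + F.card)) {w w' : Fin n}
    (hw : insert w F ∈ Δ) (hwF : w ∉ F)
    (huniq : ∀ x : Fin n, insert x F ∈ Δ → ({w, x} : Finset (Fin n)) ∉ Δ → x = w') :
    sF Δ F = 0 := by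
  classical
  have h := sum_far hΔ hw hwF hev
  have hmem : (∅ : Finset (Fin n)) ∈ far Δ F w := by
    unfold far
    rw [Finset.mem_filter]
    refine ⟨hΔ.down F hF _ (Finset.empty_subset _), by simpa using hF, ?_⟩
    intro a ha
    exact absurd ha (Finset.notMem_empty a)
  rw [← Finset.add_sum_erase _ _ hmem] at h
  have h0 : ∑ J ∈ (far Δ F w).erase ∅, (-1 : ℚ) ^ J.card * sF Δ (F ∪ J) = 0 := by
    apply Finset.sum_eq_zero
    intro J hJ
    rw [Finset.mem_erase] at hJ
    obtain ⟨hne, hJ⟩ := hJ
    unfold far at hJ
    rw [Finset.mem_filter] at hJ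
    obtain ⟨hJΔ, hFJ, hJw⟩ := hJ
    have hJw' : J = {w'} := by
      have hsub : J ⊆ {w'} := by
        intro x hx
        rw [Finset.mem_singleton]
        apply huniq x _ (hJw x hx)
        apply hΔ.down _ hFJ
        intro y hy
        rw [Finset.mem_insert] at hy
        rcases hy with rfl | hy
        · exact Finset.mem_union_right _ hx
        · exact Finset.mem_union_left _ hy
      rcases Finset.subset_singleton_iff.mp hsub with h' | h'
      · exact absurd h' hne
      · exact h'
    have hdisj := far_disjoint hΔ hw hJw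
    have hc : (F ∪ J).card = F.card + 1 := by
      rw [Finset.card_union_of_disjoint hdisj, hJw', Finset.card_singleton]
    rw [sF_eq_zero hΔ hFJ, mul_zero]
    rw [hc, ← add_assoc]
    exact hev.add_one
  rw [h0] at h
  simpa using h

/-- A vertex `v` of the link of `F` is good if the link of `F ∪ J` is a suspension for every
nonempty face `J` of the link of `F` that has a number of vertices divisible by `4`, all of
them not adjacent to `v`. -/
def Good (Δ : Finset (Finset (Fin n))) (F : Finset (Fin n)) (v : Fin n) : Prop :=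
  v ∉ F ∧ insert v F ∈ Δ ∧
    ∀ J : Finset (Fin n), J.Nonempty → 4 ∣ J.card → F ∪ J ∈ Δ →
      (∀ a ∈ J, ({v, a} : Finset (Fin n)) ∉ Δ) →
      ∃ w w' : Fin n, w ∉ F ∪ J ∧ insert w (F ∪ J) ∈ Δ ∧
        ∀ x : Fin n, insert x (F ∪ J) ∈ Δ → ({w, x} : Finset (Fin n)) ∉ Δ → x = w'

theorem sF_nonneg {Δ : Finset (Finset (Fin n))} {d : ℕ} (hΔ : FlagEulerian Δ d)
    (hd : Even d)
    (hgood : ∀ F ∈ Δ, Even F.card → F.card < d → ∃ v : Fin n, Good Δ F v) :
    ∀ m : ℕ, ∀ F ∈ Δ, F.card + 2 * m = d → 0 ≤ (-1 : ℚ) ^ m * sF Δ F := by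
  classical
  intro m
  induction m using Nat.strong_induction_on with
  | _ m ih =>
    intro F hF hcard
    have hFev : Even F.card := by
      rw [Nat.even_iff] at hd ⊢
      omega
    rcases Nat.eq_zero_or_pos m with rfl | hm
    · have hFd : F.card = d := by omega
      have hS : Δ.filter (fun G => F ⊆ G) = {F} := by
        ext G
        rw [Finset.mem_filter, Finset.mem_singleton]
        constructor
        · rintro ⟨hG, hFG⟩
          have := hΔ.dim G hG
          exact (Finset.eq_of_subset_of_card_le hFG (by omega)).symm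
        · rintro rfl
          exact ⟨hF, Finset.Subset.refl _⟩
      unfold sF
      rw [hS, Finset.sum_singleton, pow_zero, one_mul]
      exact (hFev.pow_nonneg _)
    · obtain ⟨v, hvF, hv, hgd⟩ := hgood F hF hFev (by omega)
      have hev : Even (d + F.card) := hd.add hFev
      have h := sum_far hΔ hv hvF hev
      have hmem : (∅ : Finset (Fin n)) ∈ far Δ F v := by
        unfold far
        rw [Finset.mem_filter]
        refine ⟨hΔ.down F hF _ (Finset.empty_subset _), by simpa using hF, ?_⟩
        intro a ha
        exact absurd ha (Finset.notMem_empty a)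
      rw [← Finset.add_sum_erase _ _ hmem] at h
      have hkey : ∀ J ∈ (far Δ F v).erase ∅,
          0 ≤ -((-1 : ℚ) ^ m * ((-1 : ℚ) ^ J.card * sF Δ (F ∪ J))) := by
        intro J hJ
        rw [Finset.mem_erase] at hJ
        obtain ⟨hne, hJ⟩ := hJ
        unfold far at hJ
        rw [Finset.mem_filter] at hJ
        obtain ⟨hJΔ, hFJ, hJv⟩ := hJ
        have hdisj := far_disjoint hΔ hv hJv
        have hc : (F ∪ J).card = F.card + J.card := Finset.card_union_of_disjoint hdisj
        have hJne : J.Nonempty := Finset.nonempty_iff_ne_empty.mpr hne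
        have hJpos : 0 < J.card := Finset.card_pos.mpr hJne
        have hle := hΔ.dim _ hFJ
        rcases Nat.even_or_odd J.card with hJe | hJo
        · obtain ⟨j, hj⟩ := hJe
          by_cases h4 : 4 ∣ J.card
          · obtain ⟨w, w', hwF, hw, huniq⟩ := hgd J hJne h4 hFJ hJv
            have : sF Δ (F ∪ J) = 0 := by
              apply sF_susp hΔ hFJ _ hw hwF huniq
              rw [hc, hj, ← add_assoc]
              exact hev.add ⟨j, rfl⟩
            rw [this]; simp
          · have hjo : Odd j := by
              rw [Nat.odd_iff]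
              omega
            have hmj : j ≤ m := by omega
            have hih := ih (m - j) (by omega) (F ∪ J) hFJ (by omega)
            have e1 : (-1 : ℚ) ^ J.card = 1 := by
              rw [hj, ← two_mul, pow_mul]; norm_num
            have e2 : (-1 : ℚ) ^ m = -(-1 : ℚ) ^ (m - j) := by
              have : m = (m - j) + j := by omega
              conv_lhs => rw [this]
              rw [pow_add, hjo.neg_one_pow]
              ring
            rw [e1, e2]
            have : -(-(-1 : ℚ) ^ (m - j) * (1 * sF Δ (F ∪ J)))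
                = (-1 : ℚ) ^ (m - j) * sF Δ (F ∪ J) := by ring
            rw [this]
            exact hih
        · rw [sF_eq_zero hΔ hFJ]
          · simp
          · rw [hc, ← add_assoc]
            exact hev.add_odd hJo
      have hsum := Finset.sum_nonneg hkey
      rw [Finset.sum_neg_distrib, ← Finset.mul_sum] at hsum
      have h' : ∑ J ∈ (far Δ F v).erase ∅, (-1 : ℚ) ^ J.card * sF Δ (F ∪ J) = - sF Δ F := by
        have h'' : (-1 : ℚ) ^ (∅ : Finset (Fin n)).card * sF Δ (F ∪ ∅) = sF Δ F := by simp
        rw [h''] at h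
        linarith
      rw [h'] at hsum
      linarith

end Pool.Agent.H41.CD
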