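import Pool.Agent.H41.CD.Ind
import Pool.Agent.H41.CD.FourReg

/-!
# The induction with links of maximal co-degree four
-/

set_option autoImplicit false

namespace Pool.Agent.H41.CD

open Finset

variable {n : ℕ}

/-- No vertex of a link is adjacent to all other vertices of the link. -/
theorem exists_nonadj {Δ : Finset (Finset (Fin n))} {d : ℕ} (hΔ : FlagEulerian Δ d)
    {G : Finset (Fin n)} {a : Fin n} (haG : a ∉ G) (ha : insert a G ∈ Δ) :
    ∃ b : Fin n, insert b G ∈ Δ ∧ ({a, b} : Finset (Fin n)) ∉ Δ := by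
  classical
  by_contra hcon
  push Not at hcon
  have hG : G ∈ Δ := hΔ.down _ ha _ (Finset.subset_insert _ _)
  have h := hΔ.euler G hG
  have h0 : ∑ G' ∈ Δ.filter (fun G' => G ⊆ G'), (-1 : ℚ) ^ G'.card = 0 := by
    refine Finset.sum_involution
      (fun G' _ => if a ∈ G' then G'.erase a else insert a G') ?_ ?_ ?_ ?_
    · intro G' hG'
      by_cases haG' : a ∈ G'
      · simp only [haG', if_true]
        rw [Finset.card_erase_of_mem haG']
        have : 0 < G'.card := Finset.card_pos.mpr ⟨a, haG'⟩
        obtain ⟨t, ht⟩ : ∃ t, G'.card = t + 1 := ⟨G'.card - 1, by omega⟩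
        rw [ht, Nat.add_sub_cancel, pow_succ]
        ring
      · simp only [haG', if_false]
        rw [Finset.card_insert_of_notMem haG', pow_succ]
        ring
    · intro G' hG' _
      by_cases haG' : a ∈ G'
      · simp only [haG', if_true]
        intro h'
        have : a ∉ G'.erase a := Finset.notMem_erase a G'
        rw [h'] at this
        exact this haG'
      · simp only [haG', if_false]
        intro h'
        apply haG'
        rw [← h']
        exact Finset.mem_insert_self _ _
    · intro G' hG'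
      rw [Finset.mem_filter] at hG'
      by_cases haG' : a ∈ G'
      · simp only [haG', if_true]
        rw [Finset.mem_filter]
        refine ⟨hΔ.down _ hG'.1 _ (Finset.erase_subset _ _), ?_⟩
        intro x hx
        rw [Finset.mem_erase]
        refine ⟨?_, hG'.2 hx⟩
        rintro rfl
        exact haG hx
      · simp only [haG', if_false]
        rw [Finset.mem_filter]
        refine ⟨?_, hG'.2.trans (Finset.subset_insert _ _)⟩
        have hab : ∀ b ∈ G', ({a, b} : Finset (Fin n)) ∈ Δ := by
          intro b hb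
          apply hcon b
          apply hΔ.down _ hG'.1
          exact Finset.insert_subset hb hG'.2
        have haa : ({a} : Finset (Fin n)) ∈ Δ := by
          apply hΔ.down _ ha
          intro x hx
          rw [Finset.mem_singleton] at hx
          rw [hx]; exact Finset.mem_insert_self _ _
        apply hΔ.flag
        intro x hx y hy
        rw [Finset.mem_insert] at hx hy
        rcases hx with rfl | hx
        · rcases hy with rfl | hy
          · simpa using haa
          · exact hab y hy
        · rcases hy with rfl | hy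
          · rw [Finset.pair_comm]; exact hab x hx
          · apply hΔ.down G' hG'.1
            intro z hz
            simp only [Finset.mem_insert, Finset.mem_singleton] at hz
            rcases hz with rfl | rfl
            · exact hx
            · exact hy
    · intro G' hG'
      by_cases haG' : a ∈ G'
      · have : a ∉ G'.erase a := Finset.notMem_erase a G'
        simp only [haG', if_true, this, if_false]
        exact Finset.insert_erase haG'
      · have : a ∈ insert a G' := Finset.mem_insert_self _ _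
        simp only [haG', if_false, this, if_true]
        exact Finset.erase_insert haG'
  rw [h0] at h
  have : (-1 : ℚ) ^ d ≠ 0 := pow_ne_zero _ (by norm_num)
  exact this h.symm

theorem mem_far {Δ : Finset (Finset (Fin n))} {d : ℕ} (hΔ : FlagEulerian Δ d)
    {F J : Finset (Fin n)} {v : Fin n} :
    J ∈ far Δ F v ↔ F ∪ J ∈ Δ ∧ ∀ a ∈ J, ({v, a} : Finset (Fin n)) ∉ Δ := by
  unfold far
  rw [Finset.mem_filter]
  constructor
  · rintro ⟨_, h⟩; exact h
  · rintro ⟨h1, h2⟩
    exact ⟨hΔ.down _ h1 _ Finset.subset_union_right, h1, h2⟩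

/-- The expansion at `v`. -/
theorem expand {Δ : Finset (Finset (Fin n))} {d : ℕ} (hΔ : FlagEulerian Δ d)
    {F : Finset (Fin n)} {v : Fin n} (hv : insert v F ∈ Δ) (hvF : v ∉ F)
    (hev : Even (d + F.card)) (m : ℕ) :
    (-1 : ℚ) ^ m * sF Δ F
      = ∑ J ∈ (far Δ F v).erase ∅, -((-1 : ℚ) ^ m * ((-1 : ℚ) ^ J.card * sF Δ (F ∪ J))) := by
  classical
  have hF : F ∈ Δ := hΔ.down _ hv _ (Finset.subset_insert _ _)
  have h := sum_far hΔ hv hvF hev
  have hmem : (∅ : Finset (Fin n)) ∈ far Δ F v := by
    rw [mem_far hΔ]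
    refine ⟨by simpa using hF, ?_⟩
    intro a ha
    exact absurd ha (Finset.notMem_empty a)
  rw [← Finset.add_sum_erase _ _ hmem] at h
  rw [Finset.sum_neg_distrib, ← Finset.mul_sum]
  have h'' : (-1 : ℚ) ^ (∅ : Finset (Fin n)).card * sF Δ (F ∪ ∅) = sF Δ F := by simp
  rw [h''] at h
  have h' : ∑ J ∈ (far Δ F v).erase ∅, (-1 : ℚ) ^ J.card * sF Δ (F ∪ J) = - sF Δ F := by
    linarith
  rw [h']
  ring

theorem term_odd {Δ : Finset (Finset (Fin n))} {d : ℕ} (hΔ : FlagEulerian Δ d)
    {F : Finset (Fin n)} {v : Fin n} (hv : insert v F ∈ Δ)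
    (hev : Even (d + F.card)) (m : ℕ) {J : Finset (Fin n)} (hJ : J ∈ far Δ F v)
    (hodd : Odd J.card) :
    -((-1 : ℚ) ^ m * ((-1 : ℚ) ^ J.card * sF Δ (F ∪ J))) = 0 := by
  rw [mem_far hΔ] at hJ
  have hdisj := far_disjoint hΔ hv hJ.2
  rw [sF_eq_zero hΔ hJ.1]
  · simp
  · rw [Finset.card_union_of_disjoint hdisj, ← add_assoc]
    exact hev.add_odd hodd

theorem term_two {Δ : Finset (Finset (Fin n))} {F : Finset (Fin n)} (m : ℕ)
    {J : Finset (Fin n)} (h2 : J.card = 2) :
    -((-1 : ℚ) ^ (m + 1) * ((-1 : ℚ) ^ J.card * sF Δ (F ∪ J)))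
      = (-1 : ℚ) ^ m * sF Δ (F ∪ J) := by
  rw [h2, pow_succ]; ring

theorem term_four {Δ : Finset (Finset (Fin n))} {F : Finset (Fin n)} (m : ℕ)
    {J : Finset (Fin n)} (h4 : J.card = 4) :
    -((-1 : ℚ) ^ (m + 2) * ((-1 : ℚ) ^ J.card * sF Δ (F ∪ J)))
      = -((-1 : ℚ) ^ m * sF Δ (F ∪ J)) := by
  rw [h4, pow_add]; ring

/-- The vertices of the link of `F`. -/
def vlk (Δ : Finset (Finset (Fin n))) (F : Finset (Fin n)) : Finset (Fin n) :=
  Finset.univ.filter (fun x => x ∉ F ∧ insert x F ∈ Δ)

theorem mem_vlk {Δ : Finset (Finset (Fin n))} {F : Finset (Fin n)} {x : Fin n} :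
    x ∈ vlk Δ F ↔ x ∉ F ∧ insert x F ∈ Δ := by
  unfold vlk
  rw [Finset.mem_filter]
  simp

/-- Non-adjacency. -/
abbrev nadj (Δ : Finset (Finset (Fin n))) (a b : Fin n) : Prop :=
  ({a, b} : Finset (Fin n)) ∉ Δ

instance (Δ : Finset (Finset (Fin n))) : DecidableRel (nadj Δ) := fun a b =>
  inferInstanceAs (Decidable (({a, b} : Finset (Fin n)) ∉ Δ))

theorem pair_mem {Δ : Finset (Finset (Fin n))} {d : ℕ} (hΔ : FlagEulerian Δ d)
    {G : Finset (Fin n)} (hG : G ∈ Δ) {x y : Fin n} (hx : x ∈ G) (hy : y ∈ G) :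
    ({x, y} : Finset (Fin n)) ∈ Δ := by
  apply hΔ.down G hG
  intro z hz
  simp only [Finset.mem_insert, Finset.mem_singleton] at hz
  rcases hz with rfl | rfl
  · exact hx
  · exact hy

/-- If no vertex of the link of `F` is good and every vertex has at most four
non-neighbours, then the non-adjacency graph of the link is 4-regular. -/
theorem fourReg_of_bad {Δ : Finset (Finset (Fin n))} {d : ℕ} (hΔ : FlagEulerian Δ d)
    {F : Finset (Fin n)}
    (hbad : ∀ v : Fin n, v ∉ F → insert v F ∈ Δ → ∃ J : Finset (Fin n), J.card = 4 ∧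
      F ∪ J ∈ Δ ∧ ∀ a ∈ J, ({v, a} : Finset (Fin n)) ∉ Δ)
    (hfour : ∀ v : Fin n, v ∉ F → insert v F ∈ Δ →
      ((vlk Δ F).filter (fun a => ({v, a} : Finset (Fin n)) ∉ Δ)).card ≤ 4) :
    FourReg (vlk Δ F) (nadj Δ) ∧
      ∀ v ∈ vlk Δ F, F ∪ nb (vlk Δ F) (nadj Δ) v ∈ Δ := by
  classical
  have hJ : ∀ v ∈ vlk Δ F, (nb (vlk Δ F) (nadj Δ) v).card = 4 ∧
      F ∪ nb (vlk Δ F) (nadj Δ) v ∈ Δ := by
    intro v hv
    rw [mem_vlk] at hv
    obtain ⟨J, hJ4, hFJ, hJv⟩ := hbad v hv.1 hv.2
    have hdisj := far_disjoint hΔ hv.2 hJv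
    have hsub : J ⊆ nb (vlk Δ F) (nadj Δ) v := by
      intro a ha
      rw [mem_nb, mem_vlk]
      refine ⟨⟨fun haF => Finset.disjoint_left.mp hdisj haF ha, ?_⟩, hJv a ha⟩
      apply hΔ.down _ hFJ
      intro y hy
      rw [Finset.mem_insert] at hy
      rcases hy with rfl | hy
      · exact Finset.mem_union_right _ ha
      · exact Finset.mem_union_left _ hy
    have hle : (nb (vlk Δ F) (nadj Δ) v).card ≤ 4 := hfour v hv.1 hv.2
    have heq : J = nb (vlk Δ F) (nadj Δ) v :=
      Finset.eq_of_subset_of_card_le hsub (by omega)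
    rw [← heq]
    exact ⟨hJ4, hFJ⟩
  refine ⟨⟨?_, ?_, fun v hv => (hJ v hv).1, ?_, ?_⟩, fun v hv => (hJ v hv).2⟩
  · intro a b hab
    unfold nadj at hab ⊢
    rw [Finset.pair_comm]; exact hab
  · intro a ha haa
    rw [mem_vlk] at ha
    apply haa
    exact pair_mem hΔ ha.2 (Finset.mem_insert_self _ _) (Finset.mem_insert_self _ _)
  · intro v hv a ha b hb hab
    exact hab (pair_mem hΔ (hJ v hv).2 (Finset.mem_union_right _ ha)
      (Finset.mem_union_right _ hb))
  · intro S hS hind a ha haS haR
    rw [mem_vlk] at ha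
    have hadj : ∀ x ∈ F ∪ S, ∀ y ∈ F ∪ S, ({x, y} : Finset (Fin n)) ∈ Δ := by
      intro x hx y hy
      rw [Finset.mem_union] at hx hy
      rcases hx with hx | hx
      · rcases hy with hy | hy
        · exact pair_mem hΔ ha.2 (Finset.mem_insert_of_mem hx) (Finset.mem_insert_of_mem hy)
        · have := (mem_vlk.mp (hS hy)).2
          exact pair_mem hΔ this (Finset.mem_insert_of_mem hx) (Finset.mem_insert_self _ _)
      · rcases hy with hy | hy
        · have := (mem_vlk.mp (hS hx)).2
          exact pair_mem hΔ this (Finset.mem_insert_self _ _) (Finset.mem_insert_of_mem hy)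
        · by_contra h'
          exact hind x hx y hy h'
    have haFS : a ∉ F ∪ S := by
      rw [Finset.mem_union, not_or]; exact ⟨ha.1, haS⟩
    have hins : insert a (F ∪ S) ∈ Δ := by
      have haa : ∀ y ∈ F ∪ S, ({a, y} : Finset (Fin n)) ∈ Δ := by
        intro y hy
        rw [Finset.mem_union] at hy
        rcases hy with hy | hy
        · exact pair_mem hΔ ha.2 (Finset.mem_insert_self _ _) (Finset.mem_insert_of_mem hy)
        · by_contra h'
          exact haR y hy h'
      apply hΔ.flag
      intro x hx y hy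
      rw [Finset.mem_insert] at hx hy
      rcases hx with rfl | hx
      · rcases hy with rfl | hy
        · exact pair_mem hΔ ha.2 (Finset.mem_insert_self _ _) (Finset.mem_insert_self _ _)
        · exact haa y hy
      · rcases hy with rfl | hy
        · rw [Finset.pair_comm]; exact haa x hx
        · exact hadj x hx y hy
    obtain ⟨b, hb, hab⟩ := exists_nonadj hΔ haFS hins
    have hbF : b ∉ F := by
      intro hbF
      apply hab
      exact pair_mem hΔ ha.2 (Finset.mem_insert_self _ _) (Finset.mem_insert_of_mem hbF)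
    refine ⟨b, ?_, hab, ?_⟩
    · rw [mem_vlk]
      refine ⟨hbF, hΔ.down _ hb _ ?_⟩
      exact Finset.insert_subset_insert _ Finset.subset_union_left
    · intro s hs hbs
      exact hbs (pair_mem hΔ hb (Finset.mem_insert_self _ _)
        (Finset.mem_insert_of_mem (Finset.mem_union_right _ hs)))

/-- The case of a link with no good vertex and maximal co-degree four. -/
theorem nonneg_bad {Δ : Finset (Finset (Fin n))} {d : ℕ} (hΔ : FlagEulerian Δ d)
    (hd : Even d) {F : Finset (Fin n)} (hF : F ∈ Δ) {m : ℕ} (hcard : F.card + 2 * m = d)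
    (ih : ∀ m' < m, ∀ G ∈ Δ, G.card + 2 * m' = d → 0 ≤ (-1 : ℚ) ^ m' * sF Δ G)
    (hX : (vlk Δ F).Nonempty)
    (hreg : FourReg (vlk Δ F) (nadj Δ))
    (hface : ∀ v ∈ vlk Δ F, F ∪ nb (vlk Δ F) (nadj Δ) v ∈ Δ) :
    0 ≤ (-1 : ℚ) ^ m * sF Δ F := by
  classical
  have hFev : Even F.card := by
    rw [Nat.even_iff] at hd ⊢
    omega
  have hev : Even (d + F.card) := hd.add hFev
  obtain ⟨v, hv, u, hu, hvu, c, hc, z, hz, hcz, x, hx, y, hy, hxy⟩ := hreg.unclean hX
  set Q := nb (vlk Δ F) (nadj Δ) v with hQ
  have hQ4 : Q.card = 4 := hreg.four v hv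
  have hQF := hface v hv
  rw [← hQ] at hQF
  rw [Finset.mem_inter] at hc hz
  have hv' := mem_vlk.mp hv
  have hu' := mem_vlk.mp hu
  -- the complementary edge
  set e := (Q.erase c).erase z with he
  have hzQ : z ∈ Q.erase c := by rw [Finset.mem_erase]; exact ⟨hcz.symm, hz.1⟩
  have he2 : e.card = 2 := by
    rw [he, Finset.card_erase_of_mem hzQ, Finset.card_erase_of_mem hc.1, hQ4]
  have heQ : e ⊆ Q := (Finset.erase_subset _ _).trans (Finset.erase_subset _ _)
  have hQv : ∀ a ∈ Q, ({v, a} : Finset (Fin n)) ∉ Δ := by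
    intro a ha
    exact (mem_nb.mp ha).2
  have hQdisj : Disjoint F Q := far_disjoint hΔ hv'.2 hQv
  have hedisj : Disjoint F e := Finset.disjoint_of_subset_right heQ hQdisj
  have hFe : F ∪ e ∈ Δ := hΔ.down _ hQF _ (Finset.union_subset_union_right heQ)
  have hcardFe : (F ∪ e).card = F.card + 2 := by
    rw [Finset.card_union_of_disjoint hedisj, he2]
  have hcardFQ : (F ∪ Q).card = F.card + 4 := by
    rw [Finset.card_union_of_disjoint hQdisj, hQ4]
  have hle := hΔ.dim _ hQF
  obtain ⟨m2, rfl⟩ : ∃ m2, m = m2 + 2 := ⟨m - 2, by omega⟩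
  -- every element of `Q` adjacent to `u` unless it is `c` or `z`
  have hI : nb (vlk Δ F) (nadj Δ) v ∩ nb (vlk Δ F) (nadj Δ) u = {c, z} := by
    symm
    apply Finset.eq_of_subset_of_card_le
    · intro b hb
      simp only [Finset.mem_insert, Finset.mem_singleton] at hb
      rw [Finset.mem_inter]
      rcases hb with rfl | rfl
      · exact hc
      · exact hz
    · rw [Finset.card_pair hcz]
      exact hreg.k23 hv hu hvu
  have hue : ∀ a ∈ e, ({u, a} : Finset (Fin n)) ∈ Δ := by
    intro a ha
    by_contra hua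
    have haQ := heQ ha
    have : a ∈ nb (vlk Δ F) (nadj Δ) v ∩ nb (vlk Δ F) (nadj Δ) u := by
      rw [Finset.mem_inter]
      exact ⟨haQ, mem_nb.mpr ⟨(mem_nb.mp haQ).1, hua⟩⟩
    rw [hI] at this
    simp only [Finset.mem_insert, Finset.mem_singleton] at this
    rw [he, Finset.mem_erase, Finset.mem_erase] at ha
    rcases this with h' | h'
    · exact ha.2.1 h'
    · exact ha.1 h'
  have huv : ({v, u} : Finset (Fin n)) ∈ Δ := by
    by_contra hcon
    have hc1 := mem_nb.mp hc.1
    have hc2 := mem_nb.mp hc.2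
    exact hreg.indep c hc1.1 v (mem_nb.mpr ⟨hv, hreg.symm _ _ hc1.2⟩) u
      (mem_nb.mpr ⟨hu, hreg.symm _ _ hc2.2⟩) hcon
  have huFe : u ∉ F ∪ e := by
    rw [Finset.mem_union, not_or]
    refine ⟨hu'.1, fun hue' => ?_⟩
    exact hQv u (heQ hue') huv
  have hinsu : insert u (F ∪ e) ∈ Δ := by
    have h1 : ∀ b ∈ F ∪ e, ({u, b} : Finset (Fin n)) ∈ Δ := by
      intro b hb
      rw [Finset.mem_union] at hb
      rcases hb with hb | hb
      · exact pair_mem hΔ hu'.2 (Finset.mem_insert_self _ _) (Finset.mem_insert_of_mem hb)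
      · exact hue b hb
    apply hΔ.flag
    intro a ha b hb
    rw [Finset.mem_insert] at ha hb
    rcases ha with rfl | ha
    · rcases hb with rfl | hb
      · exact pair_mem hΔ hu'.2 (Finset.mem_insert_self _ _) (Finset.mem_insert_self _ _)
      · exact h1 b hb
    · rcases hb with rfl | hb
      · rw [Finset.pair_comm]; exact h1 a ha
      · exact pair_mem hΔ hFe ha hb
  have hye : y ∈ e := by
    rw [he, Finset.mem_erase, Finset.mem_erase]
    refine ⟨?_, ?_, hy⟩
    · rintro rfl
      exact hreg.indep u hu x hx y hz.2 hxy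
    · rintro rfl
      exact hreg.indep u hu x hx y hc.2 hxy
  -- faces of the link of `F ∪ e` far from `u` have at most three vertices
  have hev' : Even (d + (F ∪ e).card) := by
    rw [hcardFe, ← add_assoc]
    exact hev.add (by decide)
  have hsmall : ∀ J ∈ far Δ (F ∪ e) u, J.card ≤ 3 := by
    intro J hJ
    rw [mem_far hΔ] at hJ
    have hJdisj := far_disjoint hΔ hinsu hJ.2
    have hsub : J ⊆ (nb (vlk Δ F) (nadj Δ) u).erase x := by
      intro b hb
      rw [Finset.mem_erase, mem_nb, mem_vlk]
      refine ⟨?_, ⟨?_, ?_⟩, hJ.2 b hb⟩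
      · rintro rfl
        apply hxy
        exact pair_mem hΔ hJ.1 (Finset.mem_union_right _ hb)
          (Finset.mem_union_left _ (Finset.mem_union_right _ hye))
      · intro hbF
        exact Finset.disjoint_left.mp hJdisj (Finset.mem_union_left _ hbF) hb
      · apply hΔ.down _ hJ.1
        intro w hw
        rw [Finset.mem_insert] at hw
        rcases hw with rfl | hw
        · exact Finset.mem_union_right _ hb
        · exact Finset.mem_union_left _ (Finset.mem_union_left _ hw)
    have h1 := Finset.card_le_card hsub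
    rw [Finset.card_erase_of_mem hx, hreg.four u hu] at h1
    omega
  -- the lower bound for the link of `F ∪ e`
  have hlow : (-1 : ℚ) ^ m2 * sF Δ (F ∪ Q) ≤ (-1 : ℚ) ^ (m2 + 1) * sF Δ (F ∪ e) := by
    rw [expand hΔ hinsu huFe hev' (m2 + 1)]
    have hterm : ∀ J ∈ (far Δ (F ∪ e) u).erase ∅,
        0 ≤ -((-1 : ℚ) ^ (m2 + 1) * ((-1 : ℚ) ^ J.card * sF Δ (F ∪ e ∪ J))) := by
      intro J hJ
      rw [Finset.mem_erase] at hJ
      have hJ3 := hsmall J hJ.2
      have hJ0 : 0 < J.card := Finset.card_pos.mpr (Finset.nonempty_iff_ne_empty.mpr hJ.1)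
      rcases Nat.even_or_odd J.card with hJe | hJo
      · have hJ2 : J.card = 2 := by
          rw [Nat.even_iff] at hJe
          omega
        rw [term_two m2 hJ2]
        have hJ' := (mem_far hΔ).mp hJ.2
        have hJd := far_disjoint hΔ hinsu hJ'.2
        apply ih m2 (by omega) _ hJ'.1
        rw [Finset.card_union_of_disjoint hJd, hcardFe, hJ2]
        omega
      · rw [term_odd hΔ hinsu hev' (m2 + 1) hJ.2 hJo]
    have hcz' : ({c, z} : Finset (Fin n)) ∈ (far Δ (F ∪ e) u).erase ∅ := by
      rw [Finset.mem_erase, mem_far hΔ]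
      refine ⟨?_, ?_, ?_⟩
      · exact (Finset.insert_nonempty c {z}).ne_empty
      · apply hΔ.down _ hQF
        intro b hb
        simp only [Finset.mem_union, Finset.mem_insert, Finset.mem_singleton] at hb
        rcases hb with (hb | hb) | rfl | rfl
        · exact Finset.mem_union_left _ hb
        · exact Finset.mem_union_right _ (heQ hb)
        · exact Finset.mem_union_right _ hc.1
        · exact Finset.mem_union_right _ hz.1
      · intro b hb
        simp only [Finset.mem_insert, Finset.mem_singleton] at hb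
        rcases hb with rfl | rfl
        · exact (mem_nb.mp hc.2).2
        · exact (mem_nb.mp hz.2).2
    have h1 := Finset.single_le_sum hterm hcz'
    rw [term_two m2 (Finset.card_pair hcz)] at h1
    have h2 : F ∪ e ∪ {c, z} = F ∪ Q := by
      ext b
      simp only [he, Finset.mem_union, Finset.mem_erase, Finset.mem_insert,
        Finset.mem_singleton]
      constructor
      · rintro ((hb | hb) | rfl | rfl)
        · exact Or.inl hb
        · exact Or.inr hb.2.2
        · exact Or.inr hc.1
        · exact Or.inr hz.1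
      · rintro (hb | hb)
        · exact Or.inl (Or.inl hb)
        · by_cases hbc : b = c
          · exact Or.inr (Or.inl hbc)
          · by_cases hbz : b = z
            · exact Or.inr (Or.inr hbz)
            · exact Or.inl (Or.inr ⟨hbz, hbc, hb⟩)
    rw [h2] at h1
    exact h1
  -- the expansion at `v`
  rw [expand hΔ hv'.2 hv'.1 hev (m2 + 2)]
  have hsubQ : ∀ J ∈ far Δ F v, J ⊆ Q := by
    intro J hJ
    rw [mem_far hΔ] at hJ
    have hJd := far_disjoint hΔ hv'.2 hJ.2
    intro b hb
    rw [hQ, mem_nb, mem_vlk]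
    refine ⟨⟨fun hbF => Finset.disjoint_left.mp hJd hbF hb, ?_⟩, hJ.2 b hb⟩
    apply hΔ.down _ hJ.1
    intro w hw
    rw [Finset.mem_insert] at hw
    rcases hw with rfl | hw
    · exact Finset.mem_union_right _ hb
    · exact Finset.mem_union_left _ hw
  have hQmem : Q ∈ (far Δ F v).erase ∅ := by
    rw [Finset.mem_erase, mem_far hΔ]
    refine ⟨?_, hQF, hQv⟩
    intro h0
    rw [h0] at hQ4
    simp at hQ4
  have hemem : e ∈ ((far Δ F v).erase ∅).erase Q := by
    rw [Finset.mem_erase, Finset.mem_erase, mem_far hΔ]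
    refine ⟨?_, ?_, hFe, fun a ha => hQv a (heQ ha)⟩
    · intro h0
      rw [h0] at he2
      omega
    · intro h0
      rw [h0] at he2
      simp at he2
  rw [← Finset.add_sum_erase _ _ hQmem, term_four m2 hQ4]
  have hterm2 : ∀ J ∈ ((far Δ F v).erase ∅).erase Q,
      0 ≤ -((-1 : ℚ) ^ (m2 + 2) * ((-1 : ℚ) ^ J.card * sF Δ (F ∪ J))) := by
    intro J hJ
    rw [Finset.mem_erase, Finset.mem_erase] at hJ
    have hJQ := hsubQ J hJ.2.2
    have hJlt : J.card < 4 := by
      rw [← hQ4]
      exact Finset.card_lt_card (Finset.ssubset_iff_subset_ne.mpr ⟨hJQ, hJ.1⟩)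
    have hJ0 : 0 < J.card := Finset.card_pos.mpr (Finset.nonempty_iff_ne_empty.mpr hJ.2.1)
    rcases Nat.even_or_odd J.card with hJe | hJo
    · have hJ2 : J.card = 2 := by
        rw [Nat.even_iff] at hJe
        omega
      rw [term_two (m2 + 1) hJ2]
      have hJ' := (mem_far hΔ).mp hJ.2.2
      have hJd := far_disjoint hΔ hv'.2 hJ'.2
      apply ih (m2 + 1) (by omega) _ hJ'.1
      rw [Finset.card_union_of_disjoint hJd, hJ2]
      omega
    · rw [term_odd hΔ hv'.2 hev (m2 + 2) hJ.2.2 hJo]
  have h3 := Finset.single_le_sum hterm2 hemem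
  rw [term_two (m2 + 1) he2] at h3
  linarith

/-- The main induction. -/
theorem sF_nonneg2 {Δ : Finset (Finset (Fin n))} {d : ℕ} (hΔ : FlagEulerian Δ d)
    (hd : Even d)
    (hvert : ∀ F ∈ Δ, Even F.card → F.card < d → (vlk Δ F).Nonempty)
    (hgood : ∀ F ∈ Δ, Even F.card → F.card < d → (∃ v : Fin n, Good Δ F v) ∨
      ∀ v : Fin n, v ∉ F → insert v F ∈ Δ →
        ((vlk Δ F).filter (fun a => ({v, a} : Finset (Fin n)) ∉ Δ)).card ≤ 4) :
    ∀ m : ℕ, ∀ F ∈ Δ, F.card + 2 * m = d → 0 ≤ (-1 : ℚ) ^ m * sF Δ F := by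
  classical
  intro m
  induction m using Nat.strong_induction_on with
  | _ m ih =>
    intro F hF hcard
    have hFev : Even F.card := by
      rw [Nat.even_iff] at hd ⊢
      omega
    rcases Nat.eq_zero_or_pos m with rfl | hm
    · have hFd : F.card = d := by omega
      have hS : Δ.filter (fun G => F ⊆ G) = {F} := by
        ext G
        rw [Finset.mem_filter, Finset.mem_singleton]
        constructor
        · rintro ⟨hG, hFG⟩
          have := hΔ.dim G hG
          exact (Finset.eq_of_subset_of_card_le hFG (by omega)).symm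
        · rintro rfl
          exact ⟨hF, Finset.Subset.refl _⟩
      unfold sF
      rw [hS, Finset.sum_singleton, pow_zero, one_mul]
      exact (hFev.pow_nonneg _)
    · have hev : Even (d + F.card) := hd.add hFev
      by_cases hg : ∃ v : Fin n, Good Δ F v
      · obtain ⟨v, hvF, hv, hgd⟩ := hg
        rw [expand hΔ hv hvF hev m]
        apply Finset.sum_nonneg
        intro J hJ
        rw [Finset.mem_erase] at hJ
        obtain ⟨hne, hJf⟩ := hJ
        have hJ := (mem_far hΔ).mp hJf
        have hdisj := far_disjoint hΔ hv hJ.2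
        have hc : (F ∪ J).card = F.card + J.card := Finset.card_union_of_disjoint hdisj
        have hJne : J.Nonempty := Finset.nonempty_iff_ne_empty.mpr hne
        have hJpos : 0 < J.card := Finset.card_pos.mpr hJne
        have hle := hΔ.dim _ hJ.1
        rcases Nat.even_or_odd J.card with hJe | hJo
        · obtain ⟨j, hj⟩ := hJe
          by_cases h4 : 4 ∣ J.card
          · obtain ⟨w, w', hwF, hw, huniq⟩ := hgd J hJne h4 hJ.1 hJ.2
            have : sF Δ (F ∪ J) = 0 := by
              apply sF_susp hΔ hJ.1 _ hw hwF huniq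
              rw [hc, hj, ← add_assoc]
              exact hev.add ⟨j, rfl⟩
            rw [this]; simp
          · have hjo : Odd j := by
              rw [Nat.odd_iff]
              omega
            have hih := ih (m - j) (by omega) (F ∪ J) hJ.1 (by omega)
            have e1 : (-1 : ℚ) ^ J.card = 1 := by
              rw [hj, ← two_mul, pow_mul]; norm_num
            have e2 : (-1 : ℚ) ^ m = -(-1 : ℚ) ^ (m - j) := by
              have : m = (m - j) + j := by omega
              conv_lhs => rw [this]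
              rw [pow_add, hjo.neg_one_pow]
              ring
            rw [e1, e2]
            have : -(-(-1 : ℚ) ^ (m - j) * (1 * sF Δ (F ∪ J)))
                = (-1 : ℚ) ^ (m - j) * sF Δ (F ∪ J) := by ring
            rw [this]
            exact hih
        · rw [term_odd hΔ hv hev m hJf hJo]
      · have hfour : ∀ v : Fin n, v ∉ F → insert v F ∈ Δ →
            ((vlk Δ F).filter (fun a => ({v, a} : Finset (Fin n)) ∉ Δ)).card ≤ 4 := by
          rcases hgood F hF hFev (by omega) with h' | h'
          · exact absurd h' hg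
          · exact h'
        have hbad : ∀ v : Fin n, v ∉ F → insert v F ∈ Δ → ∃ J : Finset (Fin n),
            J.card = 4 ∧ F ∪ J ∈ Δ ∧ ∀ a ∈ J, ({v, a} : Finset (Fin n)) ∉ Δ := by
          intro v hvF hv
          by_contra hcon
          apply hg
          refine ⟨v, hvF, hv, ?_⟩
          intro J hJne h4 hFJ hJv
          exfalso
          apply hcon
          have hJpos : 0 < J.card := Finset.card_pos.mpr hJne
          obtain ⟨J', hJ'J, hJ'4⟩ := Finset.exists_subset_card_eq
            (show 4 ≤ J.card from Nat.le_of_dvd hJpos h4)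
          refine ⟨J', hJ'4, hΔ.down _ hFJ _ (Finset.union_subset_union_right hJ'J), ?_⟩
          intro a ha
          exact hJv a (hJ'J ha)
        obtain ⟨hreg, hface⟩ := fourReg_of_bad hΔ hbad hfour
        exact nonneg_bad hΔ hd hF hcard ih (hvert F hF hFev (by omega)) hreg hface

end Pool.Agent.H41.CD
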